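import Mathlib.Data.Nat.Basic

set_option autoImplicit false

/-! Kernel friendly nested loops: the weighted count of coloured hole patterns. -/

namespace Pool.Agent.H294Z.Schur

noncomputable def sumN (n : Nat) (f : Nat → Nat) : Nat :=
  Nat.rec 0 (fun i acc => Nat.add acc (f i)) n

noncomputable def rg (lo hi : Nat) (f : Nat → Nat) : Nat :=
  Nat.rec 0 (fun i acc => @Bool.rec (fun _ => Nat) 0 (Nat.add acc (f i)) (Nat.ble lo i)) hi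

noncomputable def g (k x k' x' d : Nat) (r : Nat) : Nat :=
  @Bool.rec (fun _ => Nat) r (@Bool.rec (fun _ => Nat) 0
    (@Bool.rec (fun _ => Nat) 0 r (Nat.ble x' (Nat.add x d))) (Nat.ble x x')) (Nat.beq k k')

noncomputable def gn (k k' : Nat) (r : Nat) : Nat := @Bool.rec (fun _ => Nat) r 0 (Nat.beq k k')

def cw (k : Nat) : Nat := Nat.mod (Nat.shiftRight 12852228 (Nat.mul 8 k)) 256

def tab (s : Nat) : Nat := Nat.mod (Nat.shiftRight 6157808109421402436995760570544946962683173923056871157763921332179160229199324313023990453611723303512517609529860576704522158286967682565581480815194583780842982655082979768733563855458199608477468028227584310020941857450823243906349191314699991180580269149330443418327166878310739469237317027506418174385426427130666204040310923492009785306205806701184 s) 16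

def leaf (s : Nat) : Nat := Nat.add 1152921504606846976 (tab s)

noncomputable def ke (s c1 c2 c3 b1 kb1 b2 kb2 a ka d1 kd1 d2 kd2 e ke : Nat) : Nat :=
  g 0 c1 ke e 2 (g 2 c3 ke e 2 (g 1 c2 ke e 2 (g kd1 d1 ke e 1 (g kd2 d2 ke e 1
    (g kb1 b1 ke e 3 (g kb2 b2 ke e 3 (g ka a ke e 4 (leaf (Nat.add s (cw ke))))))))))
noncomputable def le (s c1 c2 c3 b1 kb1 b2 kb2 a ka d1 kd1 d2 kd2 e : Nat) : Nat :=
  sumN 4 (ke s c1 c2 c3 b1 kb1 b2 kb2 a ka d1 kd1 d2 kd2 e)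
noncomputable def kd2 (s c1 c2 c3 b1 kb1 b2 kb2 a ka d1 kd1 d2 kd2 : Nat) : Nat :=
  gn kd1 kd2 (g 0 c1 kd2 d2 1 (g 1 c2 kd2 d2 1 (g 2 c3 kd2 d2 1 (g kb1 b1 kd2 d2 2
    (g kb2 b2 kd2 d2 2 (g ka a kd2 d2 3 (rg (Nat.succ d1) (Nat.succ d2)
      (le (Nat.add s (cw kd2)) c1 c2 c3 b1 kb1 b2 kb2 a ka d1 kd1 d2 kd2))))))))
noncomputable def ld2 (s c1 c2 c3 b1 kb1 b2 kb2 a ka d1 kd1 d2 : Nat) : Nat :=
  sumN 4 (kd2 s c1 c2 c3 b1 kb1 b2 kb2 a ka d1 kd1 d2)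
noncomputable def kd1 (s c1 c2 c3 b1 kb1 b2 kb2 a ka d1 kd1 : Nat) : Nat :=
  g 0 c1 kd1 d1 1 (g 1 c2 kd1 d1 1 (g 2 c3 kd1 d1 1 (g kb1 b1 kd1 d1 2 (g kb2 b2 kd1 d1 2
    (g ka a kd1 d1 3 (rg (Nat.succ c2) (Nat.succ c3)
      (ld2 (Nat.add s (cw kd1)) c1 c2 c3 b1 kb1 b2 kb2 a ka d1 kd1)))))))
noncomputable def ld1 (s c1 c2 c3 b1 kb1 b2 kb2 a ka d1 : Nat) : Nat :=
  sumN 4 (kd1 s c1 c2 c3 b1 kb1 b2 kb2 a ka d1)
noncomputable def ka (s c1 c2 c3 b1 kb1 b2 kb2 a ka : Nat) : Nat :=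
  g ka a kb1 b1 1 (g ka a kb2 b2 1 (g ka a 0 c1 2 (g ka a 1 c2 2 (g ka a 2 c3 2
    (rg (Nat.succ c1) (Nat.succ c2) (ld1 (Nat.add s (cw ka)) c1 c2 c3 b1 kb1 b2 kb2 a ka))))))
noncomputable def la (s c1 c2 c3 b1 kb1 b2 kb2 a : Nat) : Nat :=
  sumN 4 (ka s c1 c2 c3 b1 kb1 b2 kb2 a)
noncomputable def kb2 (s c1 c2 c3 b1 kb1 b2 kb2 : Nat) : Nat :=
  gn kb1 kb2 (g kb2 b2 0 c1 1 (g kb2 b2 1 c2 1 (g kb2 b2 2 c3 1
    (rg b1 b2 (la (Nat.add s (cw kb2)) c1 c2 c3 b1 kb1 b2 kb2)))))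
noncomputable def lb2 (s c1 c2 c3 b1 kb1 b2 : Nat) : Nat := sumN 4 (kb2 s c1 c2 c3 b1 kb1 b2)
noncomputable def kb1 (c1 c2 c3 b1 kb1 : Nat) : Nat :=
  g kb1 b1 0 c1 1 (g kb1 b1 1 c2 1 (g kb1 b1 2 c3 1 (rg c2 c3 (lb2 (cw kb1) c1 c2 c3 b1 kb1))))
noncomputable def lb1 (c1 c2 c3 b1 : Nat) : Nat := sumN 4 (kb1 c1 c2 c3 b1)
noncomputable def inner (c1 c2 c3 : Nat) : Nat := rg c1 c2 (lb1 c1 c2 c3)

end Pool.Agent.H294Z.Schur
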