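import Mathlib

set_option autoImplicit false

open Finset

namespace Pool.Agent.H294Z.Schur

/-- position of the `i`-th particle in a row that starts at `lo` and has holes `h1 < h2 < h3` -/
def P (lo h1 h2 h3 i : ℕ) : ℕ :=
  lo + i + (if h1 ≤ lo + i then 1 else 0) + (if h2 ≤ lo + i + 1 then 1 else 0)
    + (if h3 ≤ lo + i + 2 then 1 else 0)

/-- rank of a particle position -/
def rk (lo h1 h2 h3 x : ℕ) : ℕ :=
  x - lo - (if h1 < x then 1 else 0) - (if h2 < x then 1 else 0) - (if h3 < x then 1 else 0)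

lemma P_facts {lo h1 h2 h3 : ℕ} (a1 : lo ≤ h1) (a2 : h1 < h2) (a3 : h2 < h3) (i : ℕ) :
    P lo h1 h2 h3 i ≠ h1 ∧ P lo h1 h2 h3 i ≠ h2 ∧ P lo h1 h2 h3 i ≠ h3 ∧
      lo + i ≤ P lo h1 h2 h3 i ∧ P lo h1 h2 h3 i ≤ lo + i + 3 ∧
      rk lo h1 h2 h3 (P lo h1 h2 h3 i) = i ∧ P lo h1 h2 h3 i < P lo h1 h2 h3 (i + 1) := by
  refine ⟨?_, ?_, ?_, ?_, ?_, ?_, ?_⟩
  · unfold P; split_ifs <;> omega
  · unfold P; split_ifs <;> omega
  · unfold P; split_ifs <;> omega
  · unfold P; split_ifs <;> omega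
  · unfold P; split_ifs <;> omega
  · unfold rk
    generalize hp : P lo h1 h2 h3 i = p
    unfold P at hp
    split_ifs at hp ⊢ <;> omega
  · unfold P; split_ifs <;> omega

lemma P_rk {lo h1 h2 h3 x : ℕ} (a1 : lo ≤ h1) (a2 : h1 < h2) (a3 : h2 < h3) (a4 : h3 < lo + 13)
    (b1 : lo ≤ x) (b2 : x < lo + 13) (c1 : x ≠ h1) (c2 : x ≠ h2) (c3 : x ≠ h3) :
    rk lo h1 h2 h3 x < 10 ∧ P lo h1 h2 h3 (rk lo h1 h2 h3 x) = x := by
  generalize hp : rk lo h1 h2 h3 x = p
  unfold rk at hp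
  unfold P
  split_ifs at hp ⊢ <;> omega

lemma extract (lo : ℕ) (p : ℕ → ℕ) (hm : ∀ i j, i < j → j < 10 → p i < p j)
    (hr : ∀ i < 10, lo ≤ p i ∧ p i < lo + 13) :
    ∃ h1 h2 h3 : ℕ, lo ≤ h1 ∧ h1 < h2 ∧ h2 < h3 ∧ h3 < lo + 13 ∧
      ∀ i < 10, p i = P lo h1 h2 h3 i := by
  let f : Fin 10 → ℕ := fun i => p i
  have hf : StrictMono f := fun i j hij => hm i j hij j.2
  let S : Finset ℕ := univ.image f
  have hS : S.card = 10 := by
    rw [card_image_of_injective _ hf.injective]; simp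
  have hsub : S ⊆ Finset.Ico lo (lo + 13) := by
    intro x hx
    obtain ⟨i, -, rfl⟩ := mem_image.1 hx
    rw [mem_Ico]
    exact hr i i.2
  have hT : (Finset.Ico lo (lo + 13) \ S).card = 3 := by
    rw [card_sdiff_of_subset hsub, hS]; simp
  let e := (Finset.Ico lo (lo + 13) \ S).orderEmbOfFin hT
  have he : ∀ k, e k ∈ Finset.Ico lo (lo + 13) \ S := fun k => orderEmbOfFin_mem _ hT k
  have a1 : lo ≤ e 0 := (mem_Ico.1 (mem_sdiff.1 (he 0)).1).1
  have a2 : e 0 < e 1 := e.strictMono (by decide)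
  have a3 : e 1 < e 2 := e.strictMono (by decide)
  have a4 : e 2 < lo + 13 := (mem_Ico.1 (mem_sdiff.1 (he 2)).1).2
  refine ⟨e 0, e 1, e 2, a1, a2, a3, a4, ?_⟩
  let q : Fin 10 → ℕ := fun i => P lo (e 0) (e 1) (e 2) i
  have hq : StrictMono q := by
    have : StrictMono (fun i : ℕ => P lo (e 0) (e 1) (e 2) i) :=
      strictMono_nat_of_lt_succ fun i => (P_facts a1 a2 a3 i).2.2.2.2.2.2
    exact fun i j hij => this hij
  have hqS : ∀ i, q i ∈ S := by
    intro i
    by_contra hcon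
    obtain ⟨b1, b2, b3, b4, b5, -⟩ := P_facts a1 a2 a3 i
    have hi := i.2
    have hmem : q i ∈ Finset.Ico lo (lo + 13) \ S := by
      rw [mem_sdiff, mem_Ico]
      exact ⟨⟨by simp only [q]; omega, by simp only [q]; omega⟩, hcon⟩
    have hr2 : q i ∈ Set.range e := by
      rw [range_orderEmbOfFin]; exact hmem
    obtain ⟨k, hk⟩ := hr2
    fin_cases k
    · exact b1 hk.symm
    · exact b2 hk.symm
    · exact b3 hk.symm
  have e1 := orderEmbOfFin_unique hS (f := f) (fun i => mem_image_of_mem _ (mem_univ i)) hf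
  have e2 := orderEmbOfFin_unique hS (f := q) hqS hq
  intro i hi
  have := congrFun (e1.trans e2.symm) ⟨i, hi⟩
  exact this

/-- consecutive rows are joined by lattice steps -/
def Step (lo h1 h2 h3 lo' k1 k2 k3 : ℕ) : Prop :=
  ∀ i < 10, P lo h1 h2 h3 i ≤ P lo' k1 k2 k3 i ∧ P lo' k1 k2 k3 i ≤ P lo h1 h2 h3 i + 1

lemma step_up {h1 h2 h3 k1 k2 k3 : ℕ} (a2 : h1 < h2) (a3 : h2 < h3) (a4 : h3 = 12)
    (b2 : k1 < k2) (b3 : k2 < k3) (b4 : k3 < 13) :
    Step 0 h1 h2 h3 0 k1 k2 k3 ↔ k1 ≤ h1 ∧ h1 < k2 ∧ k2 ≤ h2 ∧ h2 < k3 := by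
  subst a4
  constructor
  · intro h
    refine ⟨?_, ?_, ?_, ?_⟩
    · by_contra hc
      have := h h1 (by omega)
      unfold P at this
      split_ifs at this <;> omega
    · by_contra hc
      have := h (k2 - 1) (by omega)
      unfold P at this
      split_ifs at this <;> omega
    · by_contra hc
      have := h (h2 - 1) (by omega)
      unfold P at this
      split_ifs at this <;> omega
    · by_contra hc
      have := h (k3 - 2) (by omega)
      unfold P at this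
      split_ifs at this <;> omega
  · intro h i hi
    unfold P
    split_ifs <;> omega

lemma step_down {lo h1 h2 h3 k1 k2 k3 : ℕ} (a1 : lo ≤ h1) (a2 : h1 < h2) (a3 : h2 < h3)
    (a4 : h3 < lo + 13) (b1 : lo + 1 ≤ k1) (b2 : k1 < k2) (b3 : k2 < k3) (b4 : k3 = lo + 13) :
    Step lo h1 h2 h3 (lo + 1) k1 k2 k3 ↔ h1 < k1 ∧ k1 ≤ h2 ∧ h2 < k2 ∧ k2 ≤ h3 := by
  subst b4
  constructor
  · intro h
    refine ⟨?_, ?_, ?_, ?_⟩
    · by_contra hc
      have := h (k1 - lo - 1) (by omega)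
      unfold P at this
      split_ifs at this <;> omega
    · by_contra hc
      have := h (h2 - lo - 1) (by omega)
      unfold P at this
      split_ifs at this <;> omega
    · by_contra hc
      have := h (k2 - lo - 2) (by omega)
      unfold P at this
      split_ifs at this <;> omega
    · by_contra hc
      have := h (h3 - lo - 2) (by omega)
      unfold P at this
      split_ifs at this <;> omega
  · intro h i hi
    unfold P
    split_ifs <;> omega

end Pool.Agent.H294Z.Schur
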