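import Pool.Agent.H294Z.Schur.Grid
import Pool.Agent.H294Z.Schur.Holes

set_option autoImplicit false

open Finset

namespace Pool.Agent.H294Z.Schur

abbrev D : Type := Fin 9 → Fin 13 × Fin 4

def hx (f : D) (t : Fin 9) : ℕ := (f t).1

def hl : Fin 9 → ℕ := ![12, 12, 12, 11, 11, 10, 13, 13, 14]

def H1 (f : D) : ℕ → ℕ
  | 9 => 10 | 10 => hx f 5 | 11 => hx f 3 | 12 => hx f 0 | 13 => hx f 6 | 14 => hx f 8 | _ => 13
def H2 (f : D) : ℕ → ℕ
  | 9 => 11 | 10 => 11 | 11 => hx f 4 | 12 => hx f 1 | 13 => hx f 7 | 14 => 13 | _ => 14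
def H3 (f : D) : ℕ → ℕ
  | 9 => 12 | 10 => 12 | 11 => 12 | 12 => hx f 2 | 13 => 13 | 14 => 14 | _ => 15

def PP (f : D) (l i : ℕ) : ℕ := P (l - 12) (H1 f l) (H2 f l) (H3 f l) i
def RK (f : D) (l x : ℕ) : ℕ := rk (l - 12) (H1 f l) (H2 f l) (H3 f l) x

def GT (f : D) : Prop :=
  hx f 0 < hx f 1 ∧ hx f 1 < hx f 2 ∧ hx f 0 ≤ hx f 3 ∧ hx f 3 < hx f 1 ∧ hx f 1 ≤ hx f 4 ∧
    hx f 4 < hx f 2 ∧ hx f 3 ≤ hx f 5 ∧ hx f 5 < hx f 4 ∧ hx f 0 < hx f 6 ∧ hx f 6 ≤ hx f 1 ∧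
    hx f 1 < hx f 7 ∧ hx f 7 ≤ hx f 2 ∧ hx f 6 < hx f 8 ∧ hx f 8 ≤ hx f 7

def VD (f : D) : Prop :=
  ∀ s t, (f s).2 = (f t).2 → (hx f s ≤ hx f t ∧ hl s - hx f s ≤ hl t - hx f t) ∨
    (hx f t ≤ hx f s ∧ hl t - hx f t ≤ hl s - hx f s)

def cntD (f : D) (k : Fin 4) : ℕ := (univ.filter (fun t => (f t).2 = k)).card

lemma hx_le (f : D) (t : Fin 9) : hx f t ≤ 12 := by have := (f t).1.2; unfold hx; omega

lemma hl_vals : hl 0 = 12 ∧ hl 1 = 12 ∧ hl 2 = 12 ∧ hl 3 = 11 ∧ hl 4 = 11 ∧ hl 5 = 10 ∧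
    hl 6 = 13 ∧ hl 7 = 13 ∧ hl 8 = 14 := by decide

lemma fin9 (t : Fin 9) : t = 0 ∨ t = 1 ∨ t = 2 ∨ t = 3 ∨ t = 4 ∨ t = 5 ∨ t = 6 ∨ t = 7 ∨ t = 8 := by
  revert t; decide

lemma GT.sorted {f : D} (h : GT f) {l : ℕ} (h1 : 9 ≤ l) (h2 : l ≤ 15) :
    l - 12 ≤ H1 f l ∧ H1 f l < H2 f l ∧ H2 f l < H3 f l ∧ H3 f l < l - 12 + 13 := by
  unfold GT at h
  have := hx_le f 2
  interval_cases l <;> simp only [H1, H2, H3] <;> omega

lemma GT.hole_range {f : D} (h : GT f) (t : Fin 9) :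
    hl t - hx f t ≤ 12 ∧ hx f t ≤ hl t ∧ 10 ≤ hl t ∧ hl t ≤ 14 := by
  unfold GT at h
  have := hx_le f 2
  have := hl_vals
  rcases fin9 t with rfl | rfl | rfl | rfl | rfl | rfl | rfl | rfl | rfl <;> omega

lemma GT.hole_inj {f : D} (h : GT f) {s t : Fin 9} (e1 : hl s = hl t) (e2 : hx f s = hx f t) :
    s = t := by
  unfold GT at h
  have := hl_vals
  rcases fin9 s with rfl | rfl | rfl | rfl | rfl | rfl | rfl | rfl | rfl <;>
    rcases fin9 t with rfl | rfl | rfl | rfl | rfl | rfl | rfl | rfl | rfl <;>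
    first | rfl | omega

lemma hole_mem (f : D) (t : Fin 9) :
    hx f t = H1 f (hl t) ∨ hx f t = H2 f (hl t) ∨ hx f t = H3 f (hl t) := by
  rcases fin9 t with rfl | rfl | rfl | rfl | rfl | rfl | rfl | rfl | rfl <;>
    first | exact Or.inl rfl | exact Or.inr (Or.inl rfl) | exact Or.inr (Or.inr rfl)

lemma hole_of (f : D) {l x : ℕ} (h1 : 9 ≤ l) (h2 : l ≤ 15) (a : x ≤ 12) (b : x ≤ l)
    (h : x = H1 f l ∨ x = H2 f l ∨ x = H3 f l) : ∃ t, hl t = l ∧ hx f t = x := by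
  interval_cases l <;> simp only [H1, H2, H3] at h
  · omega
  · exact ⟨5, rfl, by omega⟩
  · rcases h with h | h | h
    · exact ⟨3, rfl, h.symm⟩
    · exact ⟨4, rfl, h.symm⟩
    · omega
  · rcases h with h | h | h
    · exact ⟨0, rfl, h.symm⟩
    · exact ⟨1, rfl, h.symm⟩
    · exact ⟨2, rfl, h.symm⟩
  · rcases h with h | h | h
    · exact ⟨6, rfl, h.symm⟩
    · exact ⟨7, rfl, h.symm⟩
    · omega
  · exact ⟨8, rfl, by omega⟩
  · omega

lemma GT.PP_range {f : D} (h : GT f) {l i : ℕ} (h1 : 9 ≤ l) (h2 : l ≤ 15) (hi : i < 10) :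
    PP f l i ≤ 12 ∧ l - PP f l i ≤ 12 ∧ PP f l i ≤ l := by
  obtain ⟨a1, a2, a3, a4⟩ := h.sorted h1 h2
  obtain ⟨b1, b2, b3, b4, b5, -⟩ := P_facts a1 a2 a3 i
  unfold PP
  interval_cases l <;> simp only [H1, H2, H3] at * <;> omega

lemma PP9 (f : D) {i : ℕ} (hi : i < 10) : PP f 9 i = i := by
  simp only [PP, H1, H2, H3, P]
  split_ifs <;> omega

lemma PP15 (f : D) {i : ℕ} (hi : i < 10) : PP f 15 i = i + 3 := by
  simp only [PP, H1, H2, H3, P]
  split_ifs <;> omega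

lemma GT.step {f : D} (h : GT f) {l i : ℕ} (h1 : 9 ≤ l) (h2 : l ≤ 14) (hi : i < 10) :
    PP f l i ≤ PP f (l + 1) i ∧ PP f (l + 1) i ≤ PP f l i + 1 := by
  have s1 := h.sorted h1 (by omega)
  have s2 := h.sorted (l := l + 1) (by omega) (by omega)
  unfold GT at h
  have := hx_le f 2
  unfold PP
  interval_cases l <;> simp only [H1, H2, H3] at s1 s2 ⊢
  · exact (step_up (by omega) (by omega) rfl (by omega) (by omega) (by omega)).2 (by omega) i hi
  · exact (step_up (by omega) (by omega) rfl (by omega) (by omega) (by omega)).2 (by omega) i hi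
  · exact (step_up (by omega) (by omega) rfl (by omega) (by omega) (by omega)).2 (by omega) i hi
  · exact (step_down (lo := 0) (by omega) (by omega) (by omega) (by omega) (by omega) (by omega)
      (by omega) rfl).2 (by omega) i hi
  · exact (step_down (lo := 1) (by omega) (by omega) (by omega) (by omega) (by omega) (by omega)
      (by omega) rfl).2 (by omega) i hi
  · exact (step_down (lo := 2) (by omega) (by omega) (by omega) (by omega) (by omega) (by omega)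
      (by omega) rfl).2 (by omega) i hi

lemma GT.chain {f : D} (h : GT f) {l l' i : ℕ} (h1 : 9 ≤ l) (h2 : l ≤ l') (h3 : l' ≤ 15)
    (hi : i < 10) : PP f l i ≤ PP f l' i ∧ PP f l' i + l ≤ PP f l i + l' := by
  induction l', h2 using Nat.le_induction with
  | base => omega
  | succ n hn ih =>
    have := ih (by omega)
    have := h.step (l := n) (by omega) (by omega) hi
    omega

lemma GT.classify {f : D} (h : GT f) (u : G) (h1 : 9 ≤ lev u) (h2 : lev u ≤ 15) :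
    (∃ t, hl t = lev u ∧ hx f t = cx u) ∨ ∃ i < 10, cx u = PP f (lev u) i := by
  have c1 := cx_le u
  have c2 := cy_le u
  have c3 : lev u = cx u + cy u := rfl
  by_cases hh : cx u = H1 f (lev u) ∨ cx u = H2 f (lev u) ∨ cx u = H3 f (lev u)
  · exact Or.inl (hole_of f h1 h2 c1 (by omega) hh)
  · push Not at hh
    obtain ⟨a1, a2, a3, a4⟩ := h.sorted h1 h2
    obtain ⟨b1, b2⟩ := P_rk (x := cx u) a1 a2 a3 a4 (by omega) (by omega) hh.1 hh.2.1 hh.2.2
    exact Or.inr ⟨_, b1, b2.symm⟩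

open Classical in
noncomputable def glue (c0 : G → Fin 14) (f : D) (u : G) : Fin 14 :=
  if lev u ≤ 9 ∨ 15 ≤ lev u then c0 u
  else if h : ∃ t, hl t = lev u ∧ hx f t = cx u then lo4 (f h.choose).2
  else tau c0 (RK f (lev u) (cx u))

lemma glue_outer (c0 : G → Fin 14) (f : D) {u : G} (hu : lev u ≤ 9 ∨ 15 ≤ lev u) :
    glue c0 f u = c0 u := if_pos hu

lemma glue_hole (c0 : G → Fin 14) {f : D} (h : GT f) {u : G} {t : Fin 9} (e1 : hl t = lev u)
    (e2 : hx f t = cx u) : glue c0 f u = lo4 (f t).2 := by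
  have := h.hole_range t
  have hex : ∃ t, hl t = lev u ∧ hx f t = cx u := ⟨t, e1, e2⟩
  rw [glue, if_neg (by omega), dif_pos hex,
    h.hole_inj (hex.choose_spec.1.trans e1.symm) (hex.choose_spec.2.trans e2.symm)]

lemma glue_part {c0 : G → Fin 14} (hc : Good c0) {f : D} (h : GT f) {u : G} {i : ℕ}
    (h1 : 9 ≤ lev u) (h2 : lev u ≤ 15) (hi : i < 10) (e : cx u = PP f (lev u) i) :
    glue c0 f u = tau c0 i := by
  rcases eq_or_lt_of_le h1 with e1 | e1
  · rw [glue_outer _ _ (Or.inl e1.ge), ← cell_self u, e, ← e1, PP9 f hi]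
    rfl
  rcases eq_or_lt_of_le h2 with e2 | e2
  · rw [glue_outer _ _ (Or.inr e2.ge), ← cell_self u, e, e2, PP15 f hi]
    exact hc.tau_upper hi
  obtain ⟨a1, a2, a3, a4⟩ := h.sorted h1 h2
  obtain ⟨b1, b2, b3, -, -, b6, -⟩ := P_facts a1 a2 a3 i
  rw [glue, if_neg (by omega), dif_neg, e]
  · exact congrArg _ b6
  · rintro ⟨t, e3, e4⟩
    have := hole_mem f t
    rw [e3, e4, e] at this
    unfold PP at this
    omega

lemma lo4_ge (k : Fin 4) : 10 ≤ (lo4 k : ℕ) := by simp [lo4]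

lemma glue_good {c0 : G → Fin 14} (hc : Good c0) {f : D} (h : GT f) (hv : VD f) :
    Good (glue c0 f) := by
  have key : ∀ u v : G, ¬ (lev u ≤ 9 ∨ 15 ≤ lev u) → glue c0 f u = glue c0 f v →
      (cx u ≤ cx v ∧ cy u ≤ cy v) ∨ (cx v ≤ cx u ∧ cy v ≤ cy u) := by
    intro u v hu e
    have cu : lev u = cx u + cy u := rfl
    have cv : lev v = cx v + cy v := rfl
    rcases h.classify u (by omega) (by omega) with ⟨s, s1, s2⟩ | ⟨i, hi, ei⟩
    · rw [glue_hole c0 h s1 s2] at e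
      have hs := lo4_ge (f s).2
      by_cases hvo : lev v ≤ 9 ∨ 15 ≤ lev v
      · rw [glue_outer _ _ hvo] at e
        have := hc.top_outer v hvo
        rw [← e] at this
        omega
      · rcases h.classify v (by omega) (by omega) with ⟨t, t1, t2⟩ | ⟨j, hj, ej⟩
        · rw [glue_hole c0 h t1 t2] at e
          have := hv s t (lo4_inj e)
          omega
        · rw [glue_part hc h (by omega) (by omega) hj ej] at e
          have := hc.tau_lt hj
          rw [← e] at this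
          omega
    · rw [glue_part hc h (by omega) (by omega) hi ei] at e
      by_cases hvo : lev v ≤ 9 ∨ 15 ≤ lev v
      · rw [glue_outer _ _ hvo] at e
        rcases hvo with hvo | hvo
        · have a1 := hc.1.comp (u := cell 9 i) (v := v) e
          rw [cx_cell (by omega), cy_cell (by omega)] at a1
          have a2 := h.chain (l := 9) (l' := lev u) le_rfl (by omega) (by omega) hi
          rw [PP9 f hi] at a2
          omega
        · rw [← hc.tau_upper hi] at e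
          have a1 := hc.1.comp e
          rw [cx_cell (by omega), cy_cell (by omega)] at a1
          have a2 := h.chain (l := lev u) (l' := 15) (by omega) (by omega) le_rfl hi
          rw [PP15 f hi] at a2
          omega
      · rcases h.classify v (by omega) (by omega) with ⟨t, t1, t2⟩ | ⟨j, hj, ej⟩
        · rw [glue_hole c0 h t1 t2] at e
          have := hc.tau_lt hi
          have := lo4_ge (f t).2
          rw [e] at *
          omega
        · rw [glue_part hc h (by omega) (by omega) hj ej] at e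
          have := hc.tau_inj hi hj e
          subst this
          rcases le_total (lev u) (lev v) with hle | hle
          · have a2 := h.chain (l := lev u) (l' := lev v) (by omega) hle (by omega) hi
            omega
          · have a2 := h.chain (l := lev v) (l' := lev u) (by omega) hle (by omega) hi
            omega
  constructor
  · apply valid_of
    intro u v e
    by_cases hu : lev u ≤ 9 ∨ 15 ≤ lev u
    · by_cases hv' : lev v ≤ 9 ∨ 15 ≤ lev v
      · rw [glue_outer _ _ hu, glue_outer _ _ hv'] at e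
        exact hc.1.comp e
      · exact (key v u hv' e.symm).symm
    · exact key u v hu e
  · intro j hj l h1 h2
    by_cases hlo : l ≤ 9 ∨ 15 ≤ l
    · obtain ⟨u, hu1, hu2⟩ := hc.2 j hj l h1 h2
      exact ⟨u, hu1, by rw [glue_outer _ _ (by omega), hu2]⟩
    · obtain ⟨i, hi, rfl⟩ := hc.tau_surj j hj
      obtain ⟨a1, a2, a3⟩ := h.PP_range (l := l) (by omega) (by omega) hi
      have e := lev_cell a1 a2 a3
      refine ⟨cell l (PP f l i), e, glue_part hc h (by omega) (by omega) hi ?_⟩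
      rw [e, cx_cell a1]

lemma hole_cell {f : D} (h : GT f) (t : Fin 9) :
    hl t = lev (cell (hl t) (hx f t)) ∧ hx f t = cx (cell (hl t) (hx f t)) := by
  obtain ⟨a1, a2, -⟩ := h.hole_range t
  exact ⟨(lev_cell (hx_le f t) a1 a2).symm, (cx_cell (hx_le f t)).symm⟩

lemma glue_low {c0 : G → Fin 14} (hc : Good c0) {f : D} (h : GT f) {u : G}
    (hu : 10 ≤ (glue c0 f u : ℕ)) : ∃ t, hl t = lev u ∧ hx f t = cx u := by
  by_cases ho : lev u ≤ 9 ∨ 15 ≤ lev u
  · rw [glue_outer _ _ ho] at hu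
    have := hc.top_outer u ho
    omega
  · rcases h.classify u (by omega) (by omega) with h1 | ⟨j, hj, ej⟩
    · exact h1
    · rw [glue_part hc h (by omega) (by omega) hj ej] at hu
      have := hc.tau_lt hj
      omega

lemma glue_cnt {c0 : G → Fin 14} (hc : Good c0) {f : D} (h : GT f) (k : Fin 4) :
    cnt (glue c0 f) (lo4 k) = cntD f k := by
  symm
  unfold cnt cntD
  refine Finset.card_bij (fun t _ => cell (hl t) (hx f t)) ?_ ?_ ?_
  · intro t ht
    obtain ⟨a1, a2⟩ := hole_cell h t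
    rw [mem_filter] at ht ⊢
    exact ⟨mem_univ _, by rw [glue_hole c0 h a1 a2, ht.2]⟩
  · intro s _ t _ e
    obtain ⟨a1, a2⟩ := hole_cell h s
    obtain ⟨b1, b2⟩ := hole_cell h t
    exact h.hole_inj (by rw [a1, b1, e]) (by rw [a2, b2, e])
  · intro u hu
    have hu' := (mem_filter.1 hu).2
    obtain ⟨t, t1, t2⟩ := glue_low hc h (u := u) (by rw [hu']; exact lo4_ge k)
    refine ⟨t, ?_, by rw [t1, t2, cell_self]⟩
    rw [glue_hole c0 h t1 t2] at hu'
    exact mem_filter.2 ⟨mem_univ _, lo4_inj hu'⟩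

lemma glue_inj {c0 : G → Fin 14} (hc : Good c0) {f f' : D} (h : GT f) (h' : GT f')
    (e : glue c0 f = glue c0 f') : f = f' := by
  have key : ∀ t, hx f t = H1 f' (hl t) ∨ hx f t = H2 f' (hl t) ∨ hx f t = H3 f' (hl t) := by
    intro t
    obtain ⟨a1, a2⟩ := hole_cell h t
    obtain ⟨s, s1, s2⟩ := glue_low hc h' (u := cell (hl t) (hx f t)) (by
      rw [← e, glue_hole c0 h a1 a2]; exact lo4_ge _)
    have := hole_mem f' s
    rwa [s1, s2, ← a1, ← a2] at this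
  have hpos : ∀ t, hx f t = hx f' t := by
    have k0 : hx f 0 = hx f' 0 ∨ hx f 0 = hx f' 1 ∨ hx f 0 = hx f' 2 := key 0
    have k1 : hx f 1 = hx f' 0 ∨ hx f 1 = hx f' 1 ∨ hx f 1 = hx f' 2 := key 1
    have k2 : hx f 2 = hx f' 0 ∨ hx f 2 = hx f' 1 ∨ hx f 2 = hx f' 2 := key 2
    have k3 : hx f 3 = hx f' 3 ∨ hx f 3 = hx f' 4 ∨ hx f 3 = 12 := key 3
    have k4 : hx f 4 = hx f' 3 ∨ hx f 4 = hx f' 4 ∨ hx f 4 = 12 := key 4
    have k5 : hx f 5 = hx f' 5 ∨ hx f 5 = 11 ∨ hx f 5 = 12 := key 5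
    have k6 : hx f 6 = hx f' 6 ∨ hx f 6 = hx f' 7 ∨ hx f 6 = 13 := key 6
    have k7 : hx f 7 = hx f' 6 ∨ hx f 7 = hx f' 7 ∨ hx f 7 = 13 := key 7
    have k8 : hx f 8 = hx f' 8 ∨ hx f 8 = 13 ∨ hx f 8 = 14 := key 8
    have := hx_le f 2
    unfold GT at h h'
    have r0 : hx f 0 = hx f' 0 ∧ hx f 1 = hx f' 1 ∧ hx f 2 = hx f' 2 := by
      clear k3 k4 k5 k6 k7 k8; omega
    have r1 : hx f 3 = hx f' 3 ∧ hx f 4 = hx f' 4 := by
      clear k0 k1 k2 k5 k6 k7 k8; omega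
    have r2 : hx f 6 = hx f' 6 ∧ hx f 7 = hx f' 7 := by
      clear k0 k1 k2 k5 k3 k4 k8; omega
    have r3 : hx f 5 = hx f' 5 ∧ hx f 8 = hx f' 8 := by
      clear k0 k1 k2 k3 k4 k6 k7; omega
    clear k0 k1 k2 k3 k4 k5 k6 k7 k8
    intro t
    rcases fin9 t with rfl | rfl | rfl | rfl | rfl | rfl | rfl | rfl | rfl <;> omega
  funext t
  refine Prod.ext (Fin.ext (hpos t)) ?_
  obtain ⟨a1, a2⟩ := hole_cell h t
  apply lo4_inj
  rw [← glue_hole c0 h a1 a2, e, glue_hole c0 h' a1 ((hpos t).symm.trans a2)]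

lemma glue_surj {c0 c : G → Fin 14} (hc0 : Good c0) (hc : Good c)
    (hag : ∀ u, lev u ≤ 9 ∨ 15 ≤ lev u → c u = c0 u) : ∃ f : D, GT f ∧ VD f ∧ glue c0 f = c := by
  obtain ⟨p, p1, p2, p3, p4, p5⟩ := hc.exists_pos
  have htau : ∀ i < 10, tau c i = tau c0 i := fun i hi =>
    hag _ (Or.inl (by rw [lev_cell] <;> omega))
  have ex : ∀ l, 9 ≤ l → l ≤ 15 → ∃ h1 h2 h3 : ℕ, l - 12 ≤ h1 ∧ h1 < h2 ∧ h2 < h3 ∧
      h3 < l - 12 + 13 ∧ (∀ i < 10, p l i = P (l - 12) h1 h2 h3 i) ∧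
      ∀ x, l - 12 ≤ x → x < l - 12 + 13 → (12 < x ∨ l < x) → x = h1 ∨ x = h2 ∨ x = h3 := by
    intro l l1 l2
    obtain ⟨h1, h2, h3, a1, a2, a3, a4, a5⟩ := extract (l - 12) (p l) (p3 l l1 l2) (fun i hi => by
      have := p1 i hi l l1 l2
      omega)
    refine ⟨h1, h2, h3, a1, a2, a3, a4, a5, fun x x1 x2 x3 => ?_⟩
    by_contra hcon
    push Not at hcon
    obtain ⟨b1, b2⟩ := P_rk a1 a2 a3 a4 x1 x2 hcon.1 hcon.2.1 hcon.2.2
    have := p1 _ b1 l l1 l2
    rw [a5 _ b1, b2] at this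
    omega
  obtain ⟨a, a2, a3, A1, A2, A3, A4, A5, A6⟩ := ex 10 (by omega) (by omega)
  obtain ⟨b1, b2, b3, B1, B2, B3, B4, B5, B6⟩ := ex 11 (by omega) (by omega)
  obtain ⟨c1, c2, c3, C1, C2, C3, C4, C5, -⟩ := ex 12 (by omega) (by omega)
  obtain ⟨d1, d2, d3, D1, D2, D3, D4, D5, D6⟩ := ex 13 (by omega) (by omega)
  obtain ⟨e, e2, e3, E1, E2, E3, E4, E5, E6⟩ := ex 14 (by omega) (by omega)
  have := A6 11 (by omega) (by omega) (by omega)
  have := A6 12 (by omega) (by omega) (by omega)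
  have := B6 12 (by omega) (by omega) (by omega)
  have := D6 13 (by omega) (by omega) (by omega)
  have := E6 13 (by omega) (by omega) (by omega)
  have := E6 14 (by omega) (by omega) (by omega)
  obtain rfl : a2 = 11 := by omega
  obtain rfl : a3 = 12 := by omega
  obtain rfl : b3 = 12 := by omega
  obtain rfl : d3 = 13 := by omega
  obtain rfl : e2 = 13 := by omega
  obtain rfl : e3 = 14 := by omega
  have S1 := (step_up A2 A3 rfl B2 B3 (by omega)).1 (fun i hi => by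
    have := p2 i hi 10 (by omega) (by omega)
    rwa [A5 i hi, B5 i hi] at this)
  have S2 := (step_up B2 B3 rfl C2 C3 (by omega)).1 (fun i hi => by
    have := p2 i hi 11 (by omega) (by omega)
    rwa [B5 i hi, C5 i hi] at this)
  have S3 := (step_down (lo := 0) C1 C2 C3 C4 D1 D2 D3 rfl).1 (fun i hi => by
    have := p2 i hi 12 (by omega) (by omega)
    rwa [C5 i hi, D5 i hi] at this)
  have S4 := (step_down (lo := 1) D1 D2 D3 D4 E1 E2 E3 rfl).1 (fun i hi => by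
    have := p2 i hi 13 (by omega) (by omega)
    rwa [D5 i hi, E5 i hi] at this)
  let xs : Fin 9 → Fin 13 := ![⟨c1, by omega⟩, ⟨c2, by omega⟩, ⟨c3, by omega⟩, ⟨b1, by omega⟩,
    ⟨b2, by omega⟩, ⟨a, by omega⟩, ⟨d1, by omega⟩, ⟨d2, by omega⟩, ⟨e, by omega⟩]
  let f : D := fun t => (xs t, ⟨(c (cell (hl t) (xs t)) : ℕ) - 10, by
    have := (c (cell (hl t) (xs t))).2
    omega⟩)
  have hGT : GT f := by
    change c1 < c2 ∧ c2 < c3 ∧ c1 ≤ b1 ∧ b1 < c2 ∧ c2 ≤ b2 ∧ b2 < c3 ∧ b1 ≤ a ∧ a < b2 ∧ c1 < d1 ∧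
      d1 ≤ c2 ∧ c2 < d2 ∧ d2 ≤ c3 ∧ d1 < e ∧ e ≤ d2
    omega
  have hPP : ∀ l, 10 ≤ l → l ≤ 14 → ∀ i < 10, p l i = PP f l i := by
    intro l l1 l2 i hi
    interval_cases l
    · exact A5 i hi
    · exact B5 i hi
    · exact C5 i hi
    · exact D5 i hi
    · exact E5 i hi
  have hlow : ∀ t, c (cell (hl t) (hx f t)) = lo4 (f t).2 := by
    intro t
    have hge : 10 ≤ (c (cell (hl t) (hx f t)) : ℕ) := by
      by_contra hcon
      obtain ⟨i, hi, ei⟩ := hc.tau_surj (c (cell (hl t) (hx f t))) (by omega)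
      obtain ⟨r1, r2, r3, r4⟩ := hGT.hole_range t
      obtain ⟨q1, q2, q3, q4⟩ := p1 i hi (hl t) (by omega) (by omega)
      have e1 := hc.1.eq_of_lev (q4.trans ei) (by
        rw [lev_cell q1 q2 q3, lev_cell (hx_le f t) r1 r2])
      have e2 := congrArg cx e1
      rw [cx_cell q1, cx_cell (hx_le f t), hPP _ r3 r4 i hi] at e2
      obtain ⟨a1, a2, a3, a4⟩ := hGT.sorted (l := hl t) (by omega) (by omega)
      obtain ⟨z1, z2, z3, -⟩ := P_facts a1 a2 a3 i
      have := hole_mem f t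
      unfold PP at e2
      omega
    apply Fin.ext
    change _ = 10 + ((c (cell (hl t) (hx f t)) : ℕ) - 10)
    omega
  refine ⟨f, hGT, fun s t e => ?_, ?_⟩
  · have e1 : c (cell (hl s) (hx f s)) = c (cell (hl t) (hx f t)) := by rw [hlow, hlow, e]
    have := hc.1.comp e1
    rwa [cx_cell (hx_le f s), cx_cell (hx_le f t), cy_cell (hGT.hole_range s).1,
      cy_cell (hGT.hole_range t).1] at this
  · funext u
    by_cases ho : lev u ≤ 9 ∨ 15 ≤ lev u
    · rw [glue_outer _ _ ho, hag u ho]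
    · rcases hGT.classify u (by omega) (by omega) with ⟨t, t1, t2⟩ | ⟨j, hj, ej⟩
      · rw [glue_hole c0 hGT t1 t2, ← hlow, t1, t2, cell_self]
      · rw [glue_part hc0 hGT (by omega) (by omega) hj ej, ← htau j hj,
          ← (p1 j hj (lev u) (by omega) (by omega)).2.2.2, hPP _ (by omega) (by omega) j hj, ← ej,
          cell_self]

lemma sum_fibre_neg {A B C : Type} (S : Finset A) (T : Finset B) (w : A → ℤ) (v : B → ℤ)
    (r : A → C) (gl : A → B → A) (hne : S.Nonempty) (hT : ∑ f ∈ T, v f < 0)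
    (h1 : ∀ a ∈ S, ∀ f ∈ T, gl a f ∈ S ∧ r (gl a f) = r a ∧ v f = w (gl a f))
    (h2 : ∀ a ∈ S, ∀ f ∈ T, ∀ f' ∈ T, gl a f = gl a f' → f = f')
    (h3 : ∀ a ∈ S, ∀ c ∈ S, r c = r a → ∃ f ∈ T, gl a f = c) : ∑ c ∈ S, w c < 0 := by
  classical
  rw [← Finset.sum_fiberwise_of_maps_to (g := r) (t := S.image r)
    (fun c hc => mem_image_of_mem _ hc)]
  refine Finset.sum_neg (fun o ho => ?_) (hne.image r)
  obtain ⟨c0, hc0, rfl⟩ := mem_image.1 ho
  refine lt_of_eq_of_lt (Eq.symm ?_) hT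
  refine Finset.sum_bij (fun f _ => gl c0 f) ?_ ?_ ?_ ?_
  · intro f hf
    exact mem_filter.2 ⟨(h1 c0 hc0 f hf).1, (h1 c0 hc0 f hf).2.1⟩
  · intro f hf f' hf' e
    exact h2 c0 hc0 f hf f' hf' e
  · intro c hc
    obtain ⟨f, f1, f2⟩ := h3 c0 hc0 c (mem_filter.1 hc).1 (mem_filter.1 hc).2
    exact ⟨f, f1, f2⟩
  · intro f hf
    exact (h1 c0 hc0 f hf).2.2

def restr (c : G → Fin 14) (u : G) : Fin 14 := if lev u ≤ 9 ∨ 15 ≤ lev u then c u else 0

lemma sum_good_neg (T : Finset D) (hT : ∀ f, f ∈ T ↔ GT f ∧ VD f)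
    (hneg : ∑ f ∈ T, w4 (cntD f) < 0) (S : Finset (G → Fin 14)) (hS : ∀ c, c ∈ S ↔ Good c) :
    ∑ c ∈ S, w4 (fun k => cnt c (lo4 k)) < 0 := by
  refine sum_fibre_neg S T _ _ restr glue ⟨hook, (hS _).2 good_hook⟩ hneg ?_ ?_ ?_
  · intro c0 hc0 f hf
    have hc0' := (hS _).1 hc0
    obtain ⟨h1, h2⟩ := (hT _).1 hf
    refine ⟨(hS _).2 (glue_good hc0' h1 h2), ?_, ?_⟩
    · funext u
      unfold restr
      split_ifs with hu
      · exact glue_outer _ _ hu
      · rfl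
    · congr 1
      funext k
      exact (glue_cnt hc0' h1 k).symm
  · intro c0 hc0 f hf f' hf' e
    exact glue_inj ((hS _).1 hc0) ((hT _).1 hf).1 ((hT _).1 hf').1 e
  · intro c0 hc0 c hc e
    obtain ⟨f, f1, f2, f3⟩ := glue_surj ((hS _).1 hc0) ((hS _).1 hc) (fun u hu => by
      have := congrFun e u
      simpa only [restr, if_pos hu] using this)
    exact ⟨f, (hT _).2 ⟨f1, f2⟩, f3⟩

end Pool.Agent.H294Z.Schur
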