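import Pool.Agent.H294Z.Schur.Comp

set_option autoImplicit false

namespace Pool.Agent.H294Z.Schur

theorem v_1_6 : inner 0 1 6 = 2937643993738246110144 := by decide +kernel
theorem v_1_7 : inner 0 1 7 = 3446082377269865629190 := by decide +kernel
theorem v_1_8 : inner 0 1 8 = 3954520760801485148236 := by decide +kernel
theorem v_2_3 : inner 0 2 3 = 1412328843143387553006 := by decide +kernel
theorem v_2_4 : inner 0 2 4 = 1920767226675007072052 := by decide +kernel
theorem v_2_8 : inner 0 2 8 = 3954520760801485148236 := by decide +kernel
theorem v_2_12 : inner 0 2 12 = 5988274294927963224420 := by decide +kernel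
theorem v_3_5 : inner 0 3 5 = 2429205610206626591098 := by decide +kernel
theorem v_3_9 : inner 0 3 9 = 4462959144333104667282 := by decide +kernel
theorem v_3_10 : inner 0 3 10 = 4971397527864724186328 := by decide +kernel
theorem v_4_6 : inner 0 4 6 = 2937643993738246110144 := by decide +kernel
theorem v_4_7 : inner 0 4 7 = 3446082377269865629190 := by decide +kernel
theorem v_4_11 : inner 0 4 11 = 5479835911396343705374 := by decide +kernel
theorem v_5_8 : inner 0 5 8 = 3954520760801485148236 := by decide +kernel
theorem v_5_12 : inner 0 5 12 = 5988274294927963224420 := by decide +kernel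
theorem v_6_9 : inner 0 6 9 = 4462959144333104667282 := by decide +kernel
theorem v_6_10 : inner 0 6 10 = 4971397527864724186328 := by decide +kernel
theorem v_7_11 : inner 0 7 11 = 5479835911396343705374 := by decide +kernel
theorem v_8_12 : inner 0 8 12 = 5988274294927963224420 := by decide +kernel
theorem v_9_10 : inner 0 9 10 = 4971397527864724186328 := by decide +kernel
theorem v_10_11 : inner 0 10 11 = 5479835911396343705374 := by decide +kernel
theorem v_11_12 : inner 0 11 12 = 5988274294927963224420 := by decide +kernel

end Pool.Agent.H294Z.Schur
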