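import Pool.Agent.H294Z.Schur.Comp

set_option autoImplicit false

namespace Pool.Agent.H294Z.Schur

theorem v_1_2 : inner 0 1 2 = 903890459611768033960 := by decide +kernel
theorem v_1_9 : inner 0 1 9 = 4462959144333104667282 := by decide +kernel
theorem v_1_10 : inner 0 1 10 = 4971397527864724186328 := by decide +kernel
theorem v_1_11 : inner 0 1 11 = 5479835911396343705374 := by decide +kernel
theorem v_2_6 : inner 0 2 6 = 2937643993738246110144 := by decide +kernel
theorem v_2_7 : inner 0 2 7 = 3446082377269865629190 := by decide +kernel
theorem v_2_11 : inner 0 2 11 = 5479835911396343705374 := by decide +kernel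
theorem v_3_4 : inner 0 3 4 = 1920767226675007072052 := by decide +kernel
theorem v_3_8 : inner 0 3 8 = 3954520760801485148236 := by decide +kernel
theorem v_3_12 : inner 0 3 12 = 5988274294927963224420 := by decide +kernel
theorem v_4_5 : inner 0 4 5 = 2429205610206626591098 := by decide +kernel
theorem v_4_9 : inner 0 4 9 = 4462959144333104667282 := by decide +kernel
theorem v_4_10 : inner 0 4 10 = 4971397527864724186328 := by decide +kernel
theorem v_5_6 : inner 0 5 6 = 2937643993738246110144 := by decide +kernel
theorem v_5_7 : inner 0 5 7 = 3446082377269865629190 := by decide +kernel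
theorem v_5_11 : inner 0 5 11 = 5479835911396343705374 := by decide +kernel
theorem v_6_8 : inner 0 6 8 = 3954520760801485148236 := by decide +kernel
theorem v_6_12 : inner 0 6 12 = 5988274294927963224420 := by decide +kernel
theorem v_7_9 : inner 0 7 9 = 4462959144333104667282 := by decide +kernel
theorem v_7_10 : inner 0 7 10 = 4971397527864724186328 := by decide +kernel
theorem v_8_11 : inner 0 8 11 = 5479835911396343705374 := by decide +kernel
theorem v_9_12 : inner 0 9 12 = 5988274294927963224420 := by decide +kernel

end Pool.Agent.H294Z.Schur
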