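import Pool.Agent.H294Z.Schur.Fibre
import Pool.Agent.H294Z.Schur.V0
import Pool.Agent.H294Z.Schur.V1
import Pool.Agent.H294Z.Schur.V2

set_option autoImplicit false

open Finset

namespace Pool.Agent.H294Z.Schur

def gP (k x k' x' d : ℕ) : Prop := k = k' → x ≤ x' ∧ x' ≤ x + d

instance (k x k' x' d : ℕ) : Decidable (gP k x k' x' d) := by unfold gP; infer_instance

lemma g_eq (k x k' x' d r : ℕ) : g k x k' x' d r = if gP k x k' x' d then r else 0 := by
  unfold g gP
  cases h1 : Nat.beq k k'
  · have : k ≠ k' := Nat.ne_of_beq_eq_false h1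
    rw [if_pos (fun e => absurd e this)]
  · have e : k = k' := Nat.eq_of_beq_eq_true h1
    cases h2 : Nat.ble x x'
    · have : ¬ x ≤ x' := Nat.not_le_of_not_ble_eq_true (by simp [h2])
      rw [if_neg (fun h => this (h e).1)]
    · have a := Nat.le_of_ble_eq_true h2
      cases h3 : Nat.ble x' (Nat.add x d)
      · have : ¬ x' ≤ x + d := Nat.not_le_of_not_ble_eq_true (by
          rw [← Nat.add_eq, h3]; simp)
        rw [if_neg (fun h => this (h e).2)]
      · have b : x' ≤ x + d := Nat.le_of_ble_eq_true h3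
        rw [if_pos (fun _ => ⟨a, b⟩)]

lemma gn_eq (k k' r : ℕ) : gn k k' r = if k ≠ k' then r else 0 := by
  unfold gn
  cases h1 : Nat.beq k k'
  · rw [if_pos (Nat.ne_of_beq_eq_false h1)]
  · rw [if_neg (not_not.2 (Nat.eq_of_beq_eq_true h1))]

lemma sumN_eq (n : ℕ) (f : ℕ → ℕ) : sumN n f = ∑ i : Fin n, f i := by
  rw [Fin.sum_univ_eq_sum_range]
  induction n with
  | zero => rfl
  | succ n ih => rw [Finset.sum_range_succ, ← ih]; rfl

lemma rg_eq (lo hi : ℕ) (f : ℕ → ℕ) :
    rg lo hi f = ∑ i ∈ range hi, if lo ≤ i then f i else 0 := by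
  induction hi with
  | zero => rfl
  | succ n ih =>
    have e : rg lo (n + 1) f
        = @Bool.rec (fun _ => Nat) 0 (Nat.add (rg lo n f) (f n)) (Nat.ble lo n) := rfl
    rw [e]
    cases h : Nat.ble lo n
    · have : ¬ lo ≤ n := Nat.not_le_of_not_ble_eq_true (by simp [h])
      symm
      refine Finset.sum_eq_zero fun i hi => if_neg ?_
      have := mem_range.1 hi
      omega
    · rw [Finset.sum_range_succ, ← ih, if_pos (Nat.le_of_ble_eq_true h)]
      rfl

lemma rg_fin {lo hi : ℕ} (h : hi ≤ 13) (f : ℕ → ℕ) :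
    rg lo hi f = ∑ x : Fin 13, if lo ≤ (x : ℕ) ∧ (x : ℕ) < hi then f x else 0 := by
  rw [rg_eq, Fin.sum_univ_eq_sum_range (fun x => if lo ≤ x ∧ x < hi then f x else 0) 13]
  rw [← Finset.sum_subset (Finset.range_subset_range.2 h)]
  · refine Finset.sum_congr rfl fun i hi' => if_congr ?_ rfl rfl
    have := mem_range.1 hi'
    omega
  · intro x _ hx
    rw [mem_range] at hx
    exact if_neg (fun h => hx h.2)

lemma rg_fin1 (lo : ℕ) (hi : Fin 13) (f : ℕ → ℕ) :
    rg lo hi f = ∑ x : Fin 13, if lo ≤ (x : ℕ) ∧ (x : ℕ) < hi then f x else 0 :=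
  rg_fin hi.2.le f

lemma rg_fin2 (lo : ℕ) (hi : Fin 13) (f : ℕ → ℕ) :
    rg lo (Nat.succ hi) f
      = ∑ x : Fin 13, if lo ≤ (x : ℕ) ∧ (x : ℕ) < Nat.succ hi then f x else 0 :=
  rg_fin hi.2 f

lemma g_shift (k x k' x' d r : ℕ) : g k (x + 1) k' (x' + 1) d r = g k x k' x' d r := by
  rw [g_eq, g_eq]
  refine if_congr ?_ rfl rfl
  unfold gP
  omega

lemma rg_shift (lo hi : ℕ) (f : ℕ → ℕ) :
    rg (lo + 1) (hi + 1) f = rg lo hi (fun i => f (i + 1)) := by
  rw [rg_eq, rg_eq, Finset.sum_range_succ', if_neg (by omega), add_zero]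
  refine Finset.sum_congr rfl fun i _ => if_congr (by omega) rfl rfl

lemma rg_shift' (lo hi : ℕ) (f : ℕ → ℕ) :
    rg (Nat.succ (lo + 1)) (Nat.succ (hi + 1)) f
      = rg (Nat.succ lo) (Nat.succ hi) (fun i => f (i + 1)) := rg_shift _ _ f

lemma inner_shift (c1 c2 c3 : ℕ) : inner (c1 + 1) (c2 + 1) (c3 + 1) = inner c1 c2 c3 := by
  have h1 : ∀ s b1 kb1 b2 kb2 a ka d1 kd1 d2 kd2 e, le s (c1 + 1) (c2 + 1) (c3 + 1) (b1 + 1) kb1
      (b2 + 1) kb2 (a + 1) ka (d1 + 1) kd1 (d2 + 1) kd2 (e + 1)
      = le s c1 c2 c3 b1 kb1 b2 kb2 a ka d1 kd1 d2 kd2 e := by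
    intros
    simp only [le, sumN_eq, ke, g_shift]
  have h2 : ∀ s b1 kb1 b2 kb2 a ka d1 kd1 d2, ld2 s (c1 + 1) (c2 + 1) (c3 + 1) (b1 + 1) kb1
      (b2 + 1) kb2 (a + 1) ka (d1 + 1) kd1 (d2 + 1)
      = ld2 s c1 c2 c3 b1 kb1 b2 kb2 a ka d1 kd1 d2 := by
    intros
    simp only [ld2, sumN_eq, kd2, g_shift, rg_shift', h1]
  have h3 : ∀ s b1 kb1 b2 kb2 a ka d1, ld1 s (c1 + 1) (c2 + 1) (c3 + 1) (b1 + 1) kb1
      (b2 + 1) kb2 (a + 1) ka (d1 + 1) = ld1 s c1 c2 c3 b1 kb1 b2 kb2 a ka d1 := by
    intros
    simp only [ld1, sumN_eq, kd1, g_shift, rg_shift', h2]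
  have h4 : ∀ s b1 kb1 b2 kb2 a, la s (c1 + 1) (c2 + 1) (c3 + 1) (b1 + 1) kb1
      (b2 + 1) kb2 (a + 1) = la s c1 c2 c3 b1 kb1 b2 kb2 a := by
    intros
    simp only [la, sumN_eq, ka, g_shift, rg_shift', h3]
  have h5 : ∀ s b1 kb1 b2, lb2 s (c1 + 1) (c2 + 1) (c3 + 1) (b1 + 1) kb1
      (b2 + 1) = lb2 s c1 c2 c3 b1 kb1 b2 := by
    intros
    simp only [lb2, sumN_eq, kb2, g_shift, rg_shift, h4]
  have h6 : ∀ b1, lb1 (c1 + 1) (c2 + 1) (c3 + 1) (b1 + 1) = lb1 c1 c2 c3 b1 := by
    intros
    simp only [lb1, sumN_eq, kb1, g_shift, rg_shift, h5]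
  simp only [inner, rg_shift, h6]

lemma inner_zero (c1 c2 c3 : ℕ) : inner c1 (c1 + c2) (c1 + c3) = inner 0 c2 c3 := by
  induction c1 with
  | zero => simp
  | succ n ih =>
    rw [← ih, ← inner_shift n]
    congr 1 <;> omega

def tbl (c2 c3 : ℕ) : ℕ :=
  ((([[0, 0, 0, 0, 0, 0, 0, 0, 0, 0, 0, 0, 0],
    [0, 0, 903890459611768033960, 1412328843143387553006, 1920767226675007072052, 2429205610206626591098, 2937643993738246110144, 3446082377269865629190, 3954520760801485148236, 4462959144333104667282, 4971397527864724186328, 5479835911396343705374, 5988274294927963224420],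
    [0, 0, 0, 1412328843143387553006, 1920767226675007072052, 2429205610206626591098, 2937643993738246110144, 3446082377269865629190, 3954520760801485148236, 4462959144333104667282, 4971397527864724186328, 5479835911396343705374, 5988274294927963224420],
    [0, 0, 0, 0, 1920767226675007072052, 2429205610206626591098, 2937643993738246110144, 3446082377269865629190, 3954520760801485148236, 4462959144333104667282, 4971397527864724186328, 5479835911396343705374, 5988274294927963224420],
    [0, 0, 0, 0, 0, 2429205610206626591098, 2937643993738246110144, 3446082377269865629190, 3954520760801485148236, 4462959144333104667282, 4971397527864724186328, 5479835911396343705374, 5988274294927963224420],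
    [0, 0, 0, 0, 0, 0, 2937643993738246110144, 3446082377269865629190, 3954520760801485148236, 4462959144333104667282, 4971397527864724186328, 5479835911396343705374, 5988274294927963224420],
    [0, 0, 0, 0, 0, 0, 0, 3446082377269865629190, 3954520760801485148236, 4462959144333104667282, 4971397527864724186328, 5479835911396343705374, 5988274294927963224420],
    [0, 0, 0, 0, 0, 0, 0, 0, 3954520760801485148236, 4462959144333104667282, 4971397527864724186328, 5479835911396343705374, 5988274294927963224420],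
    [0, 0, 0, 0, 0, 0, 0, 0, 0, 4462959144333104667282, 4971397527864724186328, 5479835911396343705374, 5988274294927963224420],
    [0, 0, 0, 0, 0, 0, 0, 0, 0, 0, 4971397527864724186328, 5479835911396343705374, 5988274294927963224420],
    [0, 0, 0, 0, 0, 0, 0, 0, 0, 0, 0, 5479835911396343705374, 5988274294927963224420],
    [0, 0, 0, 0, 0, 0, 0, 0, 0, 0, 0, 0, 5988274294927963224420],
    [0, 0, 0, 0, 0, 0, 0, 0, 0, 0, 0, 0, 0]] : List (List ℕ)).getD c2 []).getD c3 0)

lemma inner_tbl (c2 c3 : ℕ) (h1 : 0 < c2) (h2 : c2 < c3) (h3 : c3 < 13) :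
    inner 0 c2 c3 = tbl c2 c3 := by
  interval_cases c3 <;> interval_cases c2
  · exact v_1_2
  · exact v_1_3
  · exact v_2_3
  · exact v_1_4
  · exact v_2_4
  · exact v_3_4
  · exact v_1_5
  · exact v_2_5
  · exact v_3_5
  · exact v_4_5
  · exact v_1_6
  · exact v_2_6
  · exact v_3_6
  · exact v_4_6
  · exact v_5_6
  · exact v_1_7
  · exact v_2_7
  · exact v_3_7
  · exact v_4_7
  · exact v_5_7
  · exact v_6_7
  · exact v_1_8
  · exact v_2_8
  · exact v_3_8
  · exact v_4_8
  · exact v_5_8
  · exact v_6_8
  · exact v_7_8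
  · exact v_1_9
  · exact v_2_9
  · exact v_3_9
  · exact v_4_9
  · exact v_5_9
  · exact v_6_9
  · exact v_7_9
  · exact v_8_9
  · exact v_1_10
  · exact v_2_10
  · exact v_3_10
  · exact v_4_10
  · exact v_5_10
  · exact v_6_10
  · exact v_7_10
  · exact v_8_10
  · exact v_9_10
  · exact v_1_11
  · exact v_2_11
  · exact v_3_11
  · exact v_4_11
  · exact v_5_11
  · exact v_6_11
  · exact v_7_11
  · exact v_8_11
  · exact v_9_11
  · exact v_10_11
  · exact v_1_12
  · exact v_2_12
  · exact v_3_12
  · exact v_4_12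
  · exact v_5_12
  · exact v_6_12
  · exact v_7_12
  · exact v_8_12
  · exact v_9_12
  · exact v_10_12
  · exact v_11_12

lemma total : (∑ c1 : Fin 13, ∑ c2 : Fin 13, ∑ c3 : Fin 13,
    if (c1 : ℕ) < c2 ∧ (c2 : ℕ) < c3 then inner c1 c2 c3 else 0) = 985579559899181569948340 := by
  have h : (∑ c1 : Fin 13, ∑ c2 : Fin 13, ∑ c3 : Fin 13,
      if (c1 : ℕ) < c2 ∧ (c2 : ℕ) < c3 then tbl (c2 - c1) (c3 - c1) else 0)
      = 985579559899181569948340 := by decide +kernel
  rw [← h]
  refine Finset.sum_congr rfl fun c1 _ => Finset.sum_congr rfl fun c2 _ =>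
    Finset.sum_congr rfl fun c3 _ => ?_
  split_ifs with hh
  · have := c3.2
    rw [← inner_tbl _ _ (by omega) (by omega) (by omega), ← inner_zero c1]
    congr 1 <;> omega
  · rfl

def kk (f : D) (t : Fin 9) : ℕ := (f t).2

def Cond (f : D) : Prop :=
  (hx f 0 ≤ hx f 3 ∧ hx f 3 < hx f 1) ∧
      gP (kk f 3) (hx f 3) 0 (hx f 0) 1 ∧
      gP (kk f 3) (hx f 3) 1 (hx f 1) 1 ∧
      gP (kk f 3) (hx f 3) 2 (hx f 2) 1 ∧
      (hx f 1 ≤ hx f 4 ∧ hx f 4 < hx f 2) ∧
      kk f 3 ≠ kk f 4 ∧
      gP (kk f 4) (hx f 4) 0 (hx f 0) 1 ∧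
      gP (kk f 4) (hx f 4) 1 (hx f 1) 1 ∧
      gP (kk f 4) (hx f 4) 2 (hx f 2) 1 ∧
      (hx f 3 ≤ hx f 5 ∧ hx f 5 < hx f 4) ∧
      gP (kk f 5) (hx f 5) (kk f 3) (hx f 3) 1 ∧
      gP (kk f 5) (hx f 5) (kk f 4) (hx f 4) 1 ∧
      gP (kk f 5) (hx f 5) 0 (hx f 0) 2 ∧
      gP (kk f 5) (hx f 5) 1 (hx f 1) 2 ∧
      gP (kk f 5) (hx f 5) 2 (hx f 2) 2 ∧
      ((hx f 0).succ ≤ hx f 6 ∧ hx f 6 < (hx f 1).succ) ∧
      gP 0 (hx f 0) (kk f 6) (hx f 6) 1 ∧
      gP 1 (hx f 1) (kk f 6) (hx f 6) 1 ∧
      gP 2 (hx f 2) (kk f 6) (hx f 6) 1 ∧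
      gP (kk f 3) (hx f 3) (kk f 6) (hx f 6) 2 ∧
      gP (kk f 4) (hx f 4) (kk f 6) (hx f 6) 2 ∧
      gP (kk f 5) (hx f 5) (kk f 6) (hx f 6) 3 ∧
      ((hx f 1).succ ≤ hx f 7 ∧ hx f 7 < (hx f 2).succ) ∧
      kk f 6 ≠ kk f 7 ∧
      gP 0 (hx f 0) (kk f 7) (hx f 7) 1 ∧
      gP 1 (hx f 1) (kk f 7) (hx f 7) 1 ∧
      gP 2 (hx f 2) (kk f 7) (hx f 7) 1 ∧
      gP (kk f 3) (hx f 3) (kk f 7) (hx f 7) 2 ∧
      gP (kk f 4) (hx f 4) (kk f 7) (hx f 7) 2 ∧
      gP (kk f 5) (hx f 5) (kk f 7) (hx f 7) 3 ∧
      ((hx f 6).succ ≤ hx f 8 ∧ hx f 8 < (hx f 7).succ) ∧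
      gP 0 (hx f 0) (kk f 8) (hx f 8) 2 ∧
      gP 2 (hx f 2) (kk f 8) (hx f 8) 2 ∧
      gP 1 (hx f 1) (kk f 8) (hx f 8) 2 ∧
      gP (kk f 6) (hx f 6) (kk f 8) (hx f 8) 1 ∧
      gP (kk f 7) (hx f 7) (kk f 8) (hx f 8) 1 ∧
      gP (kk f 3) (hx f 3) (kk f 8) (hx f 8) 3 ∧
      gP (kk f 4) (hx f 4) (kk f 8) (hx f 8) 3 ∧
      gP (kk f 5) (hx f 5) (kk f 8) (hx f 8) 4

lemma cond_iff (f : D) (k0 : kk f 0 = 0) (k1 : kk f 1 = 1) (k2 : kk f 2 = 2)
    (a : hx f 0 < hx f 1) (b : hx f 1 < hx f 2) : Cond f ↔ GT f ∧ VD f := by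
  have hv0 := hl_vals
  have hb := hx_le f 2
  constructor
  · rintro ⟨R3, G30, G31, G32, R4, G34, G40, G41, G42, R5, G53, G54, G50, G51, G52, R6, G06, G16, G26, G36, G46, G56, R7, G67, G07, G17, G27, G37, G47, G57, R8, G08, G28, G18, G68, G78, G38, G48, G58⟩
    refine ⟨by unfold GT; omega, fun s t e0 => ?_⟩
    have e : kk f s = kk f t := congrArg Fin.val e0
    rcases fin9 s with rfl | rfl | rfl | rfl | rfl | rfl | rfl | rfl | rfl <;>
      rcases fin9 t with rfl | rfl | rfl | rfl | rfl | rfl | rfl | rfl | rfl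
    · omega
    · omega
    · omega
    · have := G30 (by omega)
      omega
    · have := G40 (by omega)
      omega
    · have := G50 (by omega)
      omega
    · have := G06 (by omega)
      omega
    · have := G07 (by omega)
      omega
    · have := G08 (by omega)
      omega
    · omega
    · omega
    · omega
    · have := G31 (by omega)
      omega
    · have := G41 (by omega)
      omega
    · have := G51 (by omega)
      omega
    · have := G16 (by omega)
      omega
    · have := G17 (by omega)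
      omega
    · have := G18 (by omega)
      omega
    · omega
    · omega
    · omega
    · have := G32 (by omega)
      omega
    · have := G42 (by omega)
      omega
    · have := G52 (by omega)
      omega
    · have := G26 (by omega)
      omega
    · have := G27 (by omega)
      omega
    · have := G28 (by omega)
      omega
    · have := G30 (by omega)
      omega
    · have := G31 (by omega)
      omega
    · have := G32 (by omega)
      omega
    · omega
    · omega
    · have := G53 (by omega)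
      omega
    · have := G36 (by omega)
      omega
    · have := G37 (by omega)
      omega
    · have := G38 (by omega)
      omega
    · have := G40 (by omega)
      omega
    · have := G41 (by omega)
      omega
    · have := G42 (by omega)
      omega
    · omega
    · omega
    · have := G54 (by omega)
      omega
    · have := G46 (by omega)
      omega
    · have := G47 (by omega)
      omega
    · have := G48 (by omega)
      omega
    · have := G50 (by omega)
      omega
    · have := G51 (by omega)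
      omega
    · have := G52 (by omega)
      omega
    · have := G53 (by omega)
      omega
    · have := G54 (by omega)
      omega
    · omega
    · have := G56 (by omega)
      omega
    · have := G57 (by omega)
      omega
    · have := G58 (by omega)
      omega
    · have := G06 (by omega)
      omega
    · have := G16 (by omega)
      omega
    · have := G26 (by omega)
      omega
    · have := G36 (by omega)
      omega
    · have := G46 (by omega)
      omega
    · have := G56 (by omega)
      omega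
    · omega
    · omega
    · have := G68 (by omega)
      omega
    · have := G07 (by omega)
      omega
    · have := G17 (by omega)
      omega
    · have := G27 (by omega)
      omega
    · have := G37 (by omega)
      omega
    · have := G47 (by omega)
      omega
    · have := G57 (by omega)
      omega
    · omega
    · omega
    · have := G78 (by omega)
      omega
    · have := G08 (by omega)
      omega
    · have := G18 (by omega)
      omega
    · have := G28 (by omega)
      omega
    · have := G38 (by omega)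
      omega
    · have := G48 (by omega)
      omega
    · have := G58 (by omega)
      omega
    · have := G68 (by omega)
      omega
    · have := G78 (by omega)
      omega
    · omega
  · rintro ⟨hg, hv⟩
    unfold GT at hg
    refine ⟨?_, ?_, ?_, ?_, ?_, ?_, ?_, ?_, ?_, ?_, ?_, ?_, ?_, ?_, ?_, ?_, ?_, ?_, ?_, ?_, ?_, ?_, ?_, ?_, ?_, ?_, ?_, ?_, ?_, ?_, ?_, ?_, ?_, ?_, ?_, ?_, ?_, ?_, ?_⟩
    · omega
    · intro e
      have := hv 3 0 (Fin.ext (by unfold kk at *; omega))
      omega
    · intro e
      have := hv 3 1 (Fin.ext (by unfold kk at *; omega))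
      omega
    · intro e
      have := hv 3 2 (Fin.ext (by unfold kk at *; omega))
      omega
    · omega
    · intro e
      have := hv 3 4 (Fin.ext (by unfold kk at *; omega))
      omega
    · intro e
      have := hv 4 0 (Fin.ext (by unfold kk at *; omega))
      omega
    · intro e
      have := hv 4 1 (Fin.ext (by unfold kk at *; omega))
      omega
    · intro e
      have := hv 4 2 (Fin.ext (by unfold kk at *; omega))
      omega
    · omega
    · intro e
      have := hv 5 3 (Fin.ext (by unfold kk at *; omega))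
      omega
    · intro e
      have := hv 5 4 (Fin.ext (by unfold kk at *; omega))
      omega
    · intro e
      have := hv 5 0 (Fin.ext (by unfold kk at *; omega))
      omega
    · intro e
      have := hv 5 1 (Fin.ext (by unfold kk at *; omega))
      omega
    · intro e
      have := hv 5 2 (Fin.ext (by unfold kk at *; omega))
      omega
    · omega
    · intro e
      have := hv 0 6 (Fin.ext (by unfold kk at *; omega))
      omega
    · intro e
      have := hv 1 6 (Fin.ext (by unfold kk at *; omega))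
      omega
    · intro e
      have := hv 2 6 (Fin.ext (by unfold kk at *; omega))
      omega
    · intro e
      have := hv 3 6 (Fin.ext (by unfold kk at *; omega))
      omega
    · intro e
      have := hv 4 6 (Fin.ext (by unfold kk at *; omega))
      omega
    · intro e
      have := hv 5 6 (Fin.ext (by unfold kk at *; omega))
      omega
    · omega
    · intro e
      have := hv 6 7 (Fin.ext (by unfold kk at *; omega))
      omega
    · intro e
      have := hv 0 7 (Fin.ext (by unfold kk at *; omega))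
      omega
    · intro e
      have := hv 1 7 (Fin.ext (by unfold kk at *; omega))
      omega
    · intro e
      have := hv 2 7 (Fin.ext (by unfold kk at *; omega))
      omega
    · intro e
      have := hv 3 7 (Fin.ext (by unfold kk at *; omega))
      omega
    · intro e
      have := hv 4 7 (Fin.ext (by unfold kk at *; omega))
      omega
    · intro e
      have := hv 5 7 (Fin.ext (by unfold kk at *; omega))
      omega
    · omega
    · intro e
      have := hv 0 8 (Fin.ext (by unfold kk at *; omega))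
      omega
    · intro e
      have := hv 2 8 (Fin.ext (by unfold kk at *; omega))
      omega
    · intro e
      have := hv 1 8 (Fin.ext (by unfold kk at *; omega))
      omega
    · intro e
      have := hv 6 8 (Fin.ext (by unfold kk at *; omega))
      omega
    · intro e
      have := hv 7 8 (Fin.ext (by unfold kk at *; omega))
      omega
    · intro e
      have := hv 3 8 (Fin.ext (by unfold kk at *; omega))
      omega
    · intro e
      have := hv 4 8 (Fin.ext (by unfold kk at *; omega))
      omega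
    · intro e
      have := hv 5 8 (Fin.ext (by unfold kk at *; omega))
      omega

end Pool.Agent.H294Z.Schur
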