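import Pool.Agent.H294Z.Schur.Flat1

set_option autoImplicit false

open Finset

namespace Pool.Agent.H294Z.Schur

def code (f : D) : ℕ :=
  Nat.add (Nat.add (Nat.add (Nat.add (Nat.add (cw (kk f 3)) (cw (kk f 4))) (cw (kk f 5)))
    (cw (kk f 6))) (cw (kk f 7))) (cw (kk f 8))

instance (f : D) : Decidable (Cond f) := by unfold Cond; infer_instance

lemma sum_cons {A M : Type} [Fintype A] [AddCommMonoid M] (n : ℕ) (F : (Fin (n + 1) → A) → M) :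
    ∑ f, F f = ∑ a, ∑ g : Fin n → A, F (Matrix.vecCons a g) := by
  rw [← Fintype.sum_prod_type']
  exact (Fintype.sum_equiv (Fin.consEquiv fun _ => A) _ _ (fun _ => rfl)).symm

lemma sum_nine {A M : Type} [Fintype A] [AddCommMonoid M] (F : (Fin 9 → A) → M) :
    ∑ f, F f = ∑ a0, ∑ a1, ∑ a2, ∑ a3, ∑ a4, ∑ a5, ∑ a6, ∑ a7, ∑ a8,
      F ![a0, a1, a2, a3, a4, a5, a6, a7, a8] := by
  simp only [sum_cons, Fintype.sum_unique]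
  rfl

lemma sum_six {A B : Type} [Fintype A] [Fintype B]
    (F : A × B → A × B → A × B → A × B → A × B → A × B → ℕ) :
    ∑ a3, ∑ a4, ∑ a5, ∑ a6, ∑ a7, ∑ a8, F a3 a4 a5 a6 a7 a8 =
      ∑ x3, ∑ k3, ∑ x4, ∑ k4, ∑ x5, ∑ k5, ∑ x6, ∑ k6, ∑ x7, ∑ k7, ∑ x8, ∑ k8,
        F (x3, k3) (x4, k4) (x5, k5) (x6, k6) (x7, k7) (x8, k8) := by
  simp only [Fintype.sum_prod_type]

lemma nest {A B : Type} [Fintype A] [Fintype B]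
    (P0 : A → Prop) {d0 : ∀ x1, Decidable (P0 x1)}
    (P1 : A → B → Prop) {d1 : ∀ x1 k1, Decidable (P1 x1 k1)}
    (P2 : A → B → A → Prop) {d2 : ∀ x1 k1 x2, Decidable (P2 x1 k1 x2)}
    (P3 : A → B → A → B → Prop) {d3 : ∀ x1 k1 x2 k2, Decidable (P3 x1 k1 x2 k2)}
    (P4 : A → B → A → B → A → Prop) {d4 : ∀ x1 k1 x2 k2 x3, Decidable (P4 x1 k1 x2 k2 x3)}
    (P5 : A → B → A → B → A → B → Prop) {d5 : ∀ x1 k1 x2 k2 x3 k3, Decidable (P5 x1 k1 x2 k2 x3 k3)}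
    (P6 : A → B → A → B → A → B → A → Prop) {d6 : ∀ x1 k1 x2 k2 x3 k3 x4, Decidable (P6 x1 k1 x2 k2 x3 k3 x4)}
    (P7 : A → B → A → B → A → B → A → B → Prop) {d7 : ∀ x1 k1 x2 k2 x3 k3 x4 k4, Decidable (P7 x1 k1 x2 k2 x3 k3 x4 k4)}
    (P8 : A → B → A → B → A → B → A → B → A → Prop) {d8 : ∀ x1 k1 x2 k2 x3 k3 x4 k4 x5, Decidable (P8 x1 k1 x2 k2 x3 k3 x4 k4 x5)}
    (P9 : A → B → A → B → A → B → A → B → A → B → Prop) {d9 : ∀ x1 k1 x2 k2 x3 k3 x4 k4 x5 k5, Decidable (P9 x1 k1 x2 k2 x3 k3 x4 k4 x5 k5)}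
    (P10 : A → B → A → B → A → B → A → B → A → B → A → Prop) {d10 : ∀ x1 k1 x2 k2 x3 k3 x4 k4 x5 k5 x6, Decidable (P10 x1 k1 x2 k2 x3 k3 x4 k4 x5 k5 x6)}
    (P11 : A → B → A → B → A → B → A → B → A → B → A → B → Prop) {d11 : ∀ x1 k1 x2 k2 x3 k3 x4 k4 x5 k5 x6 k6, Decidable (P11 x1 k1 x2 k2 x3 k3 x4 k4 x5 k5 x6 k6)}
    (L : A → B → A → B → A → B → A → B → A → B → A → B → ℕ) :
    (∑ x1, if P0 x1 then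
      ∑ k1, if P1 x1 k1 then
      ∑ x2, if P2 x1 k1 x2 then
      ∑ k2, if P3 x1 k1 x2 k2 then
      ∑ x3, if P4 x1 k1 x2 k2 x3 then
      ∑ k3, if P5 x1 k1 x2 k2 x3 k3 then
      ∑ x4, if P6 x1 k1 x2 k2 x3 k3 x4 then
      ∑ k4, if P7 x1 k1 x2 k2 x3 k3 x4 k4 then
      ∑ x5, if P8 x1 k1 x2 k2 x3 k3 x4 k4 x5 then
      ∑ k5, if P9 x1 k1 x2 k2 x3 k3 x4 k4 x5 k5 then
      ∑ x6, if P10 x1 k1 x2 k2 x3 k3 x4 k4 x5 k5 x6 then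
      ∑ k6, if P11 x1 k1 x2 k2 x3 k3 x4 k4 x5 k5 x6 k6 then
      L x1 k1 x2 k2 x3 k3 x4 k4 x5 k5 x6 k6 else 0 else 0 else 0 else 0 else 0 else 0 else 0 else 0 else 0 else 0 else 0 else 0) =
    ∑ x1, ∑ k1, ∑ x2, ∑ k2, ∑ x3, ∑ k3, ∑ x4, ∑ k4, ∑ x5, ∑ k5, ∑ x6, ∑ k6, 
      if P0 x1 ∧
        P1 x1 k1 ∧
        P2 x1 k1 x2 ∧
        P3 x1 k1 x2 k2 ∧
        P4 x1 k1 x2 k2 x3 ∧
        P5 x1 k1 x2 k2 x3 k3 ∧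
        P6 x1 k1 x2 k2 x3 k3 x4 ∧
        P7 x1 k1 x2 k2 x3 k3 x4 k4 ∧
        P8 x1 k1 x2 k2 x3 k3 x4 k4 x5 ∧
        P9 x1 k1 x2 k2 x3 k3 x4 k4 x5 k5 ∧
        P10 x1 k1 x2 k2 x3 k3 x4 k4 x5 k5 x6 ∧
        P11 x1 k1 x2 k2 x3 k3 x4 k4 x5 k5 x6 k6
      then L x1 k1 x2 k2 x3 k3 x4 k4 x5 k5 x6 k6 else 0 := by
  simp (config := { maxSteps := 10000000 }) only [Finset.ite_sum_zero, ← ite_and]

lemma ke_eq (s c1 c2 c3 b1 kb1 b2 kb2 a ka d1 kd1 d2 kd2 e k : ℕ) :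
    ke s c1 c2 c3 b1 kb1 b2 kb2 a ka d1 kd1 d2 kd2 e k =
      if gP 0 c1 k e 2 ∧ gP 2 c3 k e 2 ∧ gP 1 c2 k e 2 ∧ gP kd1 d1 k e 1 ∧ gP kd2 d2 k e 1 ∧
        gP kb1 b1 k e 3 ∧ gP kb2 b2 k e 3 ∧ gP ka a k e 4 then leaf (Nat.add s (cw k)) else 0 := by
  simp only [ke, g_eq, ite_and]

lemma kd2_eq (s c1 c2 c3 b1 kb1 b2 kb2 a ka d1 kd1 d2 k : ℕ) :
    kd2 s c1 c2 c3 b1 kb1 b2 kb2 a ka d1 kd1 d2 k =
      if kd1 ≠ k ∧ gP 0 c1 k d2 1 ∧ gP 1 c2 k d2 1 ∧ gP 2 c3 k d2 1 ∧ gP kb1 b1 k d2 2 ∧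
        gP kb2 b2 k d2 2 ∧ gP ka a k d2 3 then rg (Nat.succ d1) (Nat.succ d2)
      (le (Nat.add s (cw k)) c1 c2 c3 b1 kb1 b2 kb2 a ka d1 kd1 d2 k) else 0 := by
  simp only [kd2, g_eq, gn_eq, ite_and]

lemma kd1_eq (s c1 c2 c3 b1 kb1 b2 kb2 a ka d1 k : ℕ) :
    kd1 s c1 c2 c3 b1 kb1 b2 kb2 a ka d1 k =
      if gP 0 c1 k d1 1 ∧ gP 1 c2 k d1 1 ∧ gP 2 c3 k d1 1 ∧ gP kb1 b1 k d1 2 ∧
        gP kb2 b2 k d1 2 ∧ gP ka a k d1 3 then rg (Nat.succ c2) (Nat.succ c3)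
      (ld2 (Nat.add s (cw k)) c1 c2 c3 b1 kb1 b2 kb2 a ka d1 k) else 0 := by
  simp only [kd1, g_eq, ite_and]

lemma ka_eq (s c1 c2 c3 b1 kb1 b2 kb2 a k : ℕ) :
    ka s c1 c2 c3 b1 kb1 b2 kb2 a k =
      if gP k a kb1 b1 1 ∧ gP k a kb2 b2 1 ∧ gP k a 0 c1 2 ∧ gP k a 1 c2 2 ∧ gP k a 2 c3 2 then
        rg (Nat.succ c1) (Nat.succ c2) (ld1 (Nat.add s (cw k)) c1 c2 c3 b1 kb1 b2 kb2 a k)
      else 0 := by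
  simp only [ka, g_eq, ite_and]

lemma kb2_eq (s c1 c2 c3 b1 kb1 b2 k : ℕ) :
    kb2 s c1 c2 c3 b1 kb1 b2 k =
      if kb1 ≠ k ∧ gP k b2 0 c1 1 ∧ gP k b2 1 c2 1 ∧ gP k b2 2 c3 1 then
        rg b1 b2 (la (Nat.add s (cw k)) c1 c2 c3 b1 kb1 b2 k) else 0 := by
  simp only [kb2, g_eq, gn_eq, ite_and]

lemma kb1_eq (c1 c2 c3 b1 k : ℕ) :
    kb1 c1 c2 c3 b1 k =
      if gP k b1 0 c1 1 ∧ gP k b1 1 c2 1 ∧ gP k b1 2 c3 1 then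
        rg c2 c3 (lb2 (cw k) c1 c2 c3 b1 k) else 0 := by
  simp only [kb1, g_eq, ite_and]

lemma inner_eq (c1 c2 c3 : Fin 13) : inner c1 c2 c3 =
    ∑ a3 : Fin 13 × Fin 4, ∑ a4 : Fin 13 × Fin 4, ∑ a5 : Fin 13 × Fin 4, ∑ a6 : Fin 13 × Fin 4,
      ∑ a7 : Fin 13 × Fin 4, ∑ a8 : Fin 13 × Fin 4,
      if Cond ![(c1, 0), (c2, 1), (c3, 2), a3, a4, a5, a6, a7, a8]
      then leaf (code ![(c1, 0), (c2, 1), (c3, 2), a3, a4, a5, a6, a7, a8]) else 0 := by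
  rw [sum_six (fun a3 a4 a5 a6 a7 a8 =>
      if Cond ![(c1, 0), (c2, 1), (c3, 2), a3, a4, a5, a6, a7, a8]
      then leaf (code ![(c1, 0), (c2, 1), (c3, 2), a3, a4, a5, a6, a7, a8]) else 0)]
  conv_lhs =>
    simp (config := { maxSteps := 10000000 }) only [inner, lb1, kb1_eq, lb2, kb2_eq, la, ka_eq, ld1, kd1_eq,
      ld2, kd2_eq, le, ke_eq, rg_fin1, rg_fin2, sumN_eq]
  refine (nest _ _ _ _ _ _ _ _ _ _ _ _ _).trans ?_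
  iterate 12 refine Finset.sum_congr rfl fun _ _ => ?_
  refine if_congr ?_ rfl rfl
  simp only [Cond, and_assoc]
  rfl

def Std (f : D) : Prop := (f 0).2 = 0 ∧ (f 1).2 = 1 ∧ (f 2).2 = 2

instance (f : D) : Decidable (Std f) := by unfold Std; infer_instance

lemma sum_std : (∑ f : D, if Std f ∧ (hx f 0 < hx f 1 ∧ hx f 1 < hx f 2) ∧ Cond f
    then leaf (code f) else 0) = 985579559899181569948340 := by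
  rw [← total, sum_nine]
  have key : ∀ F : Fin 13 × Fin 4 → Fin 13 × Fin 4 → Fin 13 × Fin 4 → ℕ,
      (∑ a0, ∑ a1, ∑ a2, if a0.2 = 0 ∧ a1.2 = 1 ∧ a2.2 = 2 then F a0 a1 a2 else 0)
        = ∑ c1 : Fin 13, ∑ c2 : Fin 13, ∑ c3 : Fin 13, F (c1, 0) (c2, 1) (c3, 2) := by
    intro F
    simp only [Fintype.sum_prod_type, ite_and, ← Finset.ite_sum_zero, Finset.sum_ite_eq',
      mem_univ, if_true]
  simp only [inner_eq]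
  rw [← key (fun a0 a1 a2 => if (a0.1 : ℕ) < a1.1 ∧ (a1.1 : ℕ) < a2.1 then
    ∑ a3 : Fin 13 × Fin 4, ∑ a4 : Fin 13 × Fin 4, ∑ a5 : Fin 13 × Fin 4, ∑ a6 : Fin 13 × Fin 4,
      ∑ a7 : Fin 13 × Fin 4, ∑ a8 : Fin 13 × Fin 4,
      if Cond ![a0, a1, a2, a3, a4, a5, a6, a7, a8]
      then leaf (code ![a0, a1, a2, a3, a4, a5, a6, a7, a8]) else 0 else 0)]
  simp only [Finset.ite_sum_zero, ← ite_and]
  iterate 9 refine Finset.sum_congr rfl fun _ _ => ?_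
  rfl

def wt (b : Fin 4 → ℕ) : ℤ := ∑ ρ : Equiv.Perm (Fin 4), w4 (fun k => b (ρ.symm k))

lemma wt_tab : ∀ n0 : ℕ, n0 < 7 → ∀ n1 : ℕ, n1 < 7 → ∀ n2 : ℕ, n2 < 7 → n0 + n1 + n2 ≤ 6 →
    wt ![n0 + 1, n1 + 1, n2 + 1, 6 - n0 - n1 - n2] + 6 = tab (4 * n0 + 28 * n1 + 196 * n2) := by
  decide +kernel

end Pool.Agent.H294Z.Schur
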