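import Pool.Agent.H294Z.Schur.Flat2

set_option autoImplicit false

open Finset

namespace Pool.Agent.H294Z.Schur

def ind (a b : Fin 4) : ℕ := if a = b then 1 else 0

lemma ind_facts : ∀ a : Fin 4, cw a = 4 * ind a 0 + 28 * ind a 1 + 196 * ind a 2 ∧
    ind a 0 + ind a 1 + ind a 2 + ind a 3 = 1 := by decide

lemma cntD_eq (f : D) (k : Fin 4) : cntD f k = ind (f 0).2 k + ind (f 1).2 k + ind (f 2).2 k +
    ind (f 3).2 k + ind (f 4).2 k + ind (f 5).2 k + ind (f 6).2 k + ind (f 7).2 k +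
    ind (f 8).2 k := by
  rw [cntD, card_filter]
  simp only [Fin.sum_univ_succ, Fin.sum_univ_zero, add_zero, add_assoc]
  rfl

lemma arith {c0 c1 c2 c3 cd a00 a10 a20 a01 a11 a21 a02 a12 a22 a03 a13 a23 w3 w4 w5 w6 w7 w8
    p3 p4 p5 p6 p7 p8 q3 q4 q5 q6 q7 q8 r3 r4 r5 r6 r7 r8 s3 s4 s5 s6 s7 s8 : ℕ}
    (e0 : c0 = a00 + a10 + a20 + p3 + p4 + p5 + p6 + p7 + p8)
    (e1 : c1 = a01 + a11 + a21 + q3 + q4 + q5 + q6 + q7 + q8)
    (e2 : c2 = a02 + a12 + a22 + r3 + r4 + r5 + r6 + r7 + r8)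
    (e3 : c3 = a03 + a13 + a23 + s3 + s4 + s5 + s6 + s7 + s8)
    (i1 : a00 = 1 ∧ a10 = 0 ∧ a20 = 0 ∧ a01 = 0 ∧ a11 = 1 ∧ a21 = 0 ∧ a02 = 0 ∧ a12 = 0 ∧
      a22 = 1 ∧ a03 = 0 ∧ a13 = 0 ∧ a23 = 0)
    (f3 : w3 = 4 * p3 + 28 * q3 + 196 * r3 ∧ p3 + q3 + r3 + s3 = 1)
    (f4 : w4 = 4 * p4 + 28 * q4 + 196 * r4 ∧ p4 + q4 + r4 + s4 = 1)
    (f5 : w5 = 4 * p5 + 28 * q5 + 196 * r5 ∧ p5 + q5 + r5 + s5 = 1)
    (f6 : w6 = 4 * p6 + 28 * q6 + 196 * r6 ∧ p6 + q6 + r6 + s6 = 1)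
    (f7 : w7 = 4 * p7 + 28 * q7 + 196 * r7 ∧ p7 + q7 + r7 + s7 = 1)
    (f8 : w8 = 4 * p8 + 28 * q8 + 196 * r8 ∧ p8 + q8 + r8 + s8 = 1)
    (hc : cd = w3 + w4 + w5 + w6 + w7 + w8) :
    c0 = p3 + p4 + p5 + p6 + p7 + p8 + 1 ∧ c1 = q3 + q4 + q5 + q6 + q7 + q8 + 1 ∧
      c2 = r3 + r4 + r5 + r6 + r7 + r8 + 1 ∧
      c3 = 6 - (p3 + p4 + p5 + p6 + p7 + p8) - (q3 + q4 + q5 + q6 + q7 + q8)
        - (r3 + r4 + r5 + r6 + r7 + r8) ∧
      (p3 + p4 + p5 + p6 + p7 + p8) + (q3 + q4 + q5 + q6 + q7 + q8)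
        + (r3 + r4 + r5 + r6 + r7 + r8) ≤ 6 ∧
      cd = 4 * (p3 + p4 + p5 + p6 + p7 + p8) + 28 * (q3 + q4 + q5 + q6 + q7 + q8)
        + 196 * (r3 + r4 + r5 + r6 + r7 + r8) := by
  obtain ⟨rfl, rfl, rfl, rfl, rfl, rfl, rfl, rfl, rfl, rfl, rfl, rfl⟩ := i1
  obtain ⟨rfl, g3⟩ := f3
  obtain ⟨rfl, g4⟩ := f4
  obtain ⟨rfl, g5⟩ := f5
  obtain ⟨rfl, g6⟩ := f6
  obtain ⟨rfl, g7⟩ := f7
  obtain ⟨rfl, g8⟩ := f8
  subst e0 e1 e2 e3 hc
  refine ⟨by ring, by ring, by ring, by omega, by omega, by ring⟩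

lemma wt_code (f : D) (h : Std f) : wt (cntD f) + 6 = tab (code f) := by
  obtain ⟨h0, h1, h2⟩ := h
  have c0 := cntD_eq f 0
  have c1 := cntD_eq f 1
  have c2 := cntD_eq f 2
  have c3 := cntD_eq f 3
  rw [h0, h1, h2] at c0 c1 c2 c3
  have i1 : ind 0 0 = 1 ∧ ind 1 0 = 0 ∧ ind 2 0 = 0 ∧ ind 0 1 = 0 ∧ ind 1 1 = 1 ∧ ind 2 1 = 0 ∧
    ind 0 2 = 0 ∧ ind 1 2 = 0 ∧ ind 2 2 = 1 ∧ ind 0 3 = 0 ∧ ind 1 3 = 0 ∧ ind 2 3 = 0 := by decide
  have f3 := ind_facts (f 3).2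
  have f4 := ind_facts (f 4).2
  have f5 := ind_facts (f 5).2
  have f6 := ind_facts (f 6).2
  have f7 := ind_facts (f 7).2
  have f8 := ind_facts (f 8).2
  have hc : code f = cw (f 3).2 + cw (f 4).2 + cw (f 5).2 + cw (f 6).2 + cw (f 7).2 + cw (f 8).2 :=
    rfl
  obtain ⟨n0, n1, n2, d0, d1, d2, d3, d4, d5⟩ : ∃ n0 n1 n2 : ℕ, cntD f 0 = n0 + 1 ∧
      cntD f 1 = n1 + 1 ∧ cntD f 2 = n2 + 1 ∧ cntD f 3 = 6 - n0 - n1 - n2 ∧ n0 + n1 + n2 ≤ 6 ∧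
      code f = 4 * n0 + 28 * n1 + 196 * n2 :=
    ⟨ind (f 3).2 0 + ind (f 4).2 0 + ind (f 5).2 0 + ind (f 6).2 0 + ind (f 7).2 0 + ind (f 8).2 0,
      ind (f 3).2 1 + ind (f 4).2 1 + ind (f 5).2 1 + ind (f 6).2 1 + ind (f 7).2 1 + ind (f 8).2 1,
      ind (f 3).2 2 + ind (f 4).2 2 + ind (f 5).2 2 + ind (f 6).2 2 + ind (f 7).2 2 + ind (f 8).2 2,
      arith c0 c1 c2 c3 i1 f3 f4 f5 f6 f7 f8 hc⟩
  have e2 : cntD f = ![n0 + 1, n1 + 1, n2 + 1, 6 - n0 - n1 - n2] := by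
    funext k
    fin_cases k
    · exact d0
    · exact d1
    · exact d2
    · exact d3
  rw [e2, d5]
  exact wt_tab n0 (by clear * - d4; omega) n1 (by clear * - d4; omega) n2
    (by clear * - d4; omega) d4

def act (ρ : Equiv.Perm (Fin 4)) (f : D) : D := fun t => ((f t).1, ρ (f t).2)

lemma perm_ext : ∀ ρ ρ' : Equiv.Perm (Fin 4), ρ 0 = ρ' 0 → ρ 1 = ρ' 1 → ρ 2 = ρ' 2 → ρ = ρ' := by
  decide +kernel

lemma perm_ex : ∀ a b c : Fin 4, a ≠ b → a ≠ c → b ≠ c →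
    ∃ ρ : Equiv.Perm (Fin 4), ρ 0 = a ∧ ρ 1 = b ∧ ρ 2 = c := by
  decide +kernel

lemma sum_symm (T T0 : Finset D) (hT : ∀ f, f ∈ T ↔ GT f ∧ VD f)
    (hT0 : ∀ f, f ∈ T0 ↔ Std f ∧ GT f ∧ VD f) :
    ∑ f ∈ T, w4 (cntD f) = ∑ f ∈ T0, wt (cntD f) := by
  have hVD : ∀ ρ f, VD f → VD (act ρ f) := fun ρ f h s t e => h s t (ρ.injective e)
  unfold wt
  rw [← Finset.sum_product']
  symm
  refine Finset.sum_bij (fun q _ => act q.2 q.1) ?_ ?_ ?_ ?_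
  · intro q hq
    obtain ⟨-, h2, h3⟩ := (hT0 _).1 (mem_product.1 hq).1
    exact (hT _).2 ⟨h2, hVD _ _ h3⟩
  · rintro ⟨f, ρ⟩ hq ⟨f', ρ'⟩ hq' e
    obtain ⟨⟨a0, a1, a2⟩, -⟩ := (hT0 _).1 (mem_product.1 hq).1
    obtain ⟨⟨b0, b1, b2⟩, -⟩ := (hT0 _).1 (mem_product.1 hq').1
    have e1 : ∀ t, (f t).1 = (f' t).1 := fun t => by
      have := congrArg Prod.fst (congrFun e t)
      exact this
    have e2 : ∀ t, ρ (f t).2 = ρ' (f' t).2 := fun t => by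
      have := congrArg Prod.snd (congrFun e t)
      exact this
    simp only at a0 a1 a2 b0 b1 b2
    have hρ : ρ = ρ' := perm_ext _ _ (by have := e2 0; rwa [a0, b0] at this)
      (by have := e2 1; rwa [a1, b1] at this) (by have := e2 2; rwa [a2, b2] at this)
    subst hρ
    refine Prod.ext ?_ rfl
    funext t
    exact Prod.ext (e1 t) (ρ.injective (e2 t))
  · intro f hf
    obtain ⟨h1, h2⟩ := (hT _).1 hf
    have hv0 := hl_vals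
    have hb := hx_le f 2
    have h1' := h1
    unfold GT at h1'
    obtain ⟨ρ, r0, r1, r2⟩ := perm_ex (f 0).2 (f 1).2 (f 2).2
      (fun e => by have := h2 0 1 e; omega) (fun e => by have := h2 0 2 e; omega)
      (fun e => by have := h2 1 2 e; omega)
    refine ⟨(act ρ.symm f, ρ), mem_product.2 ⟨(hT0 _).2 ⟨⟨?_, ?_, ?_⟩, h1, hVD _ _ h2⟩,
      mem_univ _⟩, ?_⟩
    · change ρ.symm (f 0).2 = 0
      rw [← r0, Equiv.symm_apply_apply]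
    · change ρ.symm (f 1).2 = 1
      rw [← r1, Equiv.symm_apply_apply]
    · change ρ.symm (f 2).2 = 2
      rw [← r2, Equiv.symm_apply_apply]
    · funext t
      simp [act]
  · rintro ⟨f, ρ⟩ _
    congr 1
    funext k
    unfold cntD
    congr 1
    ext t
    simp [act, Equiv.eq_symm_apply]

lemma tab_le (s : ℕ) : tab s ≤ 15 := by
  have : tab s < 16 := Nat.mod_lt _ (by norm_num)
  omega

lemma neg_of (T0 : Finset D) (hS : ∀ f ∈ T0, Std f)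
    (h : ∑ f ∈ T0, leaf (code f) = 985579559899181569948340) : ∑ f ∈ T0, wt (cntD f) < 0 := by
  have e1 : ∑ f ∈ T0, leaf (code f) = 1152921504606846976 * T0.card + ∑ f ∈ T0, tab (code f) := by
    have : ∀ f, leaf (code f) = 1152921504606846976 + tab (code f) := fun f => rfl
    simp only [this, Finset.sum_add_distrib, Finset.sum_const, smul_eq_mul]
    ring
  have e2 : ∑ f ∈ T0, tab (code f) ≤ T0.card * 15 := by
    have := Finset.sum_le_card_nsmul T0 (fun f => tab (code f)) 15 (fun f _ => tab_le _)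
    simpa using this
  have e3 : ∑ f ∈ T0, wt (cntD f) + 6 * T0.card = ((∑ f ∈ T0, tab (code f) : ℕ) : ℤ) := by
    rw [Nat.cast_sum, ← Finset.sum_congr rfl (fun f hf => wt_code f (hS f hf)),
      Finset.sum_add_distrib, Finset.sum_const, nsmul_eq_mul]
    ring
  generalize ∑ f ∈ T0, tab (code f) = S at *
  generalize T0.card = C at *
  omega

lemma exists_filter {A : Type} [Fintype A] (p : A → Prop) [DecidablePred p] :
    ∃ T : Finset A, (∀ f, f ∈ T ↔ p f) ∧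
      ∀ w : A → ℕ, ∑ f ∈ T, w f = ∑ f, if p f then w f else 0 :=
  ⟨univ.filter p, fun f => by simp, fun w => Finset.sum_filter _ _⟩

lemma data_neg (T : Finset D) (hT : ∀ f, f ∈ T ↔ GT f ∧ VD f) : ∑ f ∈ T, w4 (cntD f) < 0 := by
  obtain ⟨T0, h1, h2'⟩ := exists_filter
    (fun f : D => Std f ∧ (hx f 0 < hx f 1 ∧ hx f 1 < hx f 2) ∧ Cond f)
  have h2 := (h2' (fun f => leaf (code f))).trans sum_std
  rw [sum_symm T T0 hT]
  · exact neg_of T0 (fun f hf => ((h1 f).1 hf).1) h2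
  · intro f
    rw [h1]
    refine and_congr_right fun hs => ?_
    have k0 : kk f 0 = 0 := congrArg Fin.val hs.1
    have k1 : kk f 1 = 1 := congrArg Fin.val hs.2.1
    have k2 : kk f 2 = 2 := congrArg Fin.val hs.2.2
    constructor
    · rintro ⟨⟨a, b⟩, c⟩
      exact (cond_iff f k0 k1 k2 a b).1 c
    · intro h
      exact ⟨⟨h.1.1, h.1.2.1⟩, (cond_iff f k0 k1 k2 h.1.1 h.1.2.1).2 h⟩

theorem main (S : Finset (G → Fin 14)) (hS : ∀ c, c ∈ S ↔ Valid c) :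
    MvPolynomial.coeff (Finsupp.equivFunOnFinite.symm al)
      ((∑ c ∈ S, ∏ v : G, (MvPolynomial.X (c v) : MvPolynomial (Fin 14) ℤ)) *
        ∏ p ∈ (univ : Finset (Fin 14 × Fin 14)).filter (fun p => p.1 < p.2),
          (MvPolynomial.X p.1 - MvPolynomial.X p.2 : MvPolynomial (Fin 14) ℤ)) < 0 := by
  classical
  rw [coeff_eq]
  obtain ⟨T, hT, -⟩ := exists_filter (fun f : D => GT f ∧ VD f)
  have h := sum_good_neg T hT (data_neg T hT) (S.filter Good) (fun c => by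
    rw [mem_filter, hS]
    exact ⟨fun h => h.2, fun h => ⟨h.1, h⟩⟩)
  refine lt_of_eq_of_lt ?_ h
  rw [Finset.sum_filter]
  refine Finset.sum_congr rfl fun c hc => ?_
  split_ifs with hg
  · exact sum_perm (cnt c) hg.cnt_top
  · refine Finset.sum_eq_zero fun σ _ => if_neg fun hh => hg ?_
    exact force ((hS c).1 hc) σ hh

end Pool.Agent.H294Z.Schur
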