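import Pool.Agent.H294Z.Schur.Vand

set_option autoImplicit false

open Finset

namespace Pool.Agent.H294Z.Schur

abbrev G : Type := Fin 2 → Fin 13

def cx (u : G) : ℕ := u 0
def cy (u : G) : ℕ := u 1
def lev (u : G) : ℕ := cx u + cy u

lemma cx_le (u : G) : cx u ≤ 12 := by have := (u 0).2; unfold cx; omega
lemma cy_le (u : G) : cy u ≤ 12 := by have := (u 1).2; unfold cy; omega

lemma le_iff (u v : G) : u ≤ v ↔ cx u ≤ cx v ∧ cy u ≤ cy v := by
  rw [Pi.le_def, Fin.forall_fin_two]
  rfl

lemma G_ext {u v : G} (h0 : cx u = cx v) (h1 : cy u = cy v) : u = v := by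
  funext i
  fin_cases i
  · exact Fin.ext h0
  · exact Fin.ext h1

def cell (l x : ℕ) : G := ![Fin.ofNat 13 x, Fin.ofNat 13 (l - x)]

lemma cx_cell {l x : ℕ} (h : x ≤ 12) : cx (cell l x) = x := by
  simp only [cx, cell, Matrix.cons_val_zero, Fin.val_ofNat]
  omega

lemma cy_cell {l x : ℕ} (h : l - x ≤ 12) : cy (cell l x) = l - x := by
  simp only [cy, cell, Matrix.cons_val_one, Matrix.cons_val_zero, Fin.val_ofNat]
  omega

lemma lev_cell {l x : ℕ} (h1 : x ≤ 12) (h2 : l - x ≤ 12) (h3 : x ≤ l) : lev (cell l x) = l := by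
  rw [lev, cx_cell h1, cy_cell h2]
  omega

lemma cell_self (u : G) : cell (lev u) (cx u) = u := by
  have h1 := cx_le u
  have h2 := cy_le u
  apply G_ext
  · exact cx_cell h1
  · rw [cy_cell] <;> unfold lev <;> omega

/-- Colour classes are chains. -/
def Valid (c : G → Fin 14) : Prop := ∀ u v : G, ¬ u ≤ v → ¬ v ≤ u → c u ≠ c v

lemma Valid.comp {c : G → Fin 14} (h : Valid c) {u v : G} (e : c u = c v) :
    (cx u ≤ cx v ∧ cy u ≤ cy v) ∨ (cx v ≤ cx u ∧ cy v ≤ cy u) := by
  rw [← le_iff, ← le_iff]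
  by_contra hcon
  push Not at hcon
  exact h u v hcon.1 hcon.2 e

lemma valid_of {c : G → Fin 14} (h : ∀ u v : G, c u = c v →
    (cx u ≤ cx v ∧ cy u ≤ cy v) ∨ (cx v ≤ cx u ∧ cy v ≤ cy u)) : Valid c := by
  intro u v h1 h2 e
  rw [le_iff] at h1 h2
  rcases h u v e with h3 | h3
  · exact h1 h3
  · exact h2 h3

lemma Valid.eq_of_lev {c : G → Fin 14} (h : Valid c) {u v : G} (e : c u = c v)
    (hl : lev u = lev v) : u = v := by
  have := h.comp e
  unfold lev at hl
  apply G_ext <;> omega

def cnt (c : G → Fin 14) (i : Fin 14) : ℕ := (univ.filter (fun v => c v = i)).card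

def Full (c : G → Fin 14) (i : Fin 14) : Prop :=
  ∀ l : ℕ, (i : ℕ) ≤ l → l + i ≤ 24 → ∃ u, lev u = l ∧ c u = i

lemma card_level (l : ℕ) : (univ.filter (fun u : G => lev u = l)).card ≤ min (l + 1) (25 - l) := by
  have h := Finset.card_le_card_of_injOn (s := univ.filter (fun u : G => lev u = l))
    (t := Finset.Icc (l - 12) (min l 12)) cx (by
      intro u hu
      have h1 := cx_le u
      have h2 := cy_le u
      simp only [coe_filter, mem_univ, true_and, Set.mem_ofPred_eq, lev] at hu
      simp only [coe_Icc, Set.mem_Icc]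
      omega) (by
      intro u hu v hv e
      simp only [coe_filter, mem_univ, true_and, Set.mem_ofPred_eq, lev] at hu hv
      apply G_ext <;> omega)
  rw [Nat.card_Icc] at h
  omega

lemma pigeon (c : G → Fin 14) (u : G) (s : ℕ) (hs : s = min (lev u + 1) (25 - lev u))
    (hs10 : s ≤ 10) (h : ∀ j : Fin 14, (j : ℕ) < s → Full c j) : (c u : ℕ) < s := by
  by_contra hcon
  have h1 : insert (c u) (univ.filter (fun j : Fin 14 => (j : ℕ) < s))
      ⊆ (univ.filter (fun v : G => lev v = lev u)).image c := by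
    intro j hj
    rw [mem_insert] at hj
    rcases hj with rfl | hj
    · exact mem_image_of_mem _ (by simp)
    · have hj' := (mem_filter.1 hj).2
      obtain ⟨v, hv1, hv2⟩ := h j hj' (lev u) (by omega) (by omega)
      exact mem_image.2 ⟨v, by simp [hv1], hv2⟩
  have h2 := card_le_card h1
  rw [card_insert_of_notMem (by simpa using hcon)] at h2
  have h3 := (card_image_le (s := univ.filter (fun v : G => lev v = lev u)) (f := c)).trans
    (card_level (lev u))
  have h4 : (univ.filter (fun j : Fin 14 => (j : ℕ) < s)).card = s := by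
    interval_cases s <;> rfl
  omega

lemma only_in (c : G → Fin 14) (i : Fin 14) (hi : (i : ℕ) ≤ 10)
    (h : ∀ j : Fin 14, (j : ℕ) < i → Full c j) (u : G) (hu : (i : ℕ) ≤ c u) :
    (i : ℕ) ≤ lev u ∧ lev u + i ≤ 24 := by
  by_contra hcon
  have h1 := cx_le u
  have h2 := cy_le u
  have h3 : lev u ≤ 24 := by unfold lev; omega
  have := pigeon c u _ rfl (by omega) (fun j hj => h j (by omega))
  omega

lemma cnt_image {c : G → Fin 14} (hc : Valid c) (i : Fin 14) :
    cnt c i = ((univ.filter (fun v => c v = i)).image lev).card := by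
  rw [cnt, card_image_of_injOn]
  intro u hu v hv e
  simp only [coe_filter, mem_univ, true_and, Set.mem_ofPred_eq] at hu hv
  exact hc.eq_of_lev (hu.trans hv.symm) e

lemma image_sub (c : G → Fin 14) (i : Fin 14) (hi : (i : ℕ) ≤ 10)
    (h : ∀ j : Fin 14, (j : ℕ) < i → Full c j) :
    (univ.filter (fun v => c v = i)).image lev ⊆ Finset.Icc (i : ℕ) (24 - i) := by
  intro l hl
  obtain ⟨u, hu, rfl⟩ := mem_image.1 hl
  have := only_in c i hi h u (by rw [(mem_filter.1 hu).2])
  rw [mem_Icc]
  omega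

/-- Valid colourings whose ten first colours are as large as possible. -/
def Good (c : G → Fin 14) : Prop := Valid c ∧ ∀ i : Fin 14, (i : ℕ) < 10 → Full c i

lemma Good.cnt_top {c : G → Fin 14} (h : Good c) (i : Fin 14) (hi : (i : ℕ) < 10) :
    cnt c i + 2 * i = 25 := by
  have h1 := image_sub c i hi.le (fun j hj => h.2 j (by omega))
  have h2 : Finset.Icc (i : ℕ) (24 - i) ⊆ (univ.filter (fun v => c v = i)).image lev := by
    intro l hl
    rw [mem_Icc] at hl
    obtain ⟨u, hu1, hu2⟩ := h.2 i hi l hl.1 (by omega)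
    exact mem_image.2 ⟨u, by simp [hu2], hu1⟩
  rw [cnt_image h.1, Finset.Subset.antisymm h1 h2, Nat.card_Icc]
  omega

lemma force {c : G → Fin 14} (hc : Valid c) (σ : Equiv.Perm (Fin 14))
    (h : ∀ i, cnt c i + ((σ i).rev : ℕ) = al i) : Good c := by
  have key : ∀ n : ℕ, n ≤ 10 → ∀ i : Fin 14, (i : ℕ) < n → σ i = i ∧ Full c i := by
    intro n
    induction n with
    | zero => intro _ i hi; omega
    | succ n ih =>
      intro hn i hi
      have ih' := ih (by omega)
      by_cases hlt : (i : ℕ) < n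
      · exact ih' i hlt
      have hin : (i : ℕ) = n := by omega
      have hσ : (i : ℕ) ≤ σ i := by
        by_contra hcon
        have := σ.injective (ih' (σ i) (by omega)).1
        rw [this] at hcon
        omega
      have h1 := image_sub c i (by omega) (fun j hj => (ih' j (by omega)).2)
      have h2 := card_le_card h1
      rw [← cnt_image hc, Nat.card_Icc] at h2
      have e1 := h i
      have e3 := al_top i (by omega)
      have e4 := (σ i).2
      rw [Fin.val_rev] at e1
      refine ⟨Fin.ext (by omega), fun l hl1 hl2 => ?_⟩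
      have h3 := Finset.eq_of_subset_of_card_le h1 (by
        rw [← cnt_image hc, Nat.card_Icc]; omega)
      have h4 : l ∈ (univ.filter (fun v => c v = i)).image lev := by
        rw [h3, mem_Icc]; omega
      obtain ⟨u, hu, hul⟩ := mem_image.1 h4
      exact ⟨u, hul, (mem_filter.1 hu).2⟩
  exact ⟨hc, fun i hi => (key 10 le_rfl i hi).2⟩

lemma Good.top_outer {c : G → Fin 14} (h : Good c) (u : G) (hu : lev u ≤ 9 ∨ 15 ≤ lev u) :
    (c u : ℕ) < 10 := by
  by_contra hcon
  have := only_in c 10 (by decide) (fun j hj => h.2 j hj) u (by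
    have : ((10 : Fin 14) : ℕ) = 10 := rfl
    omega)
  have e : ((10 : Fin 14) : ℕ) = 10 := rfl
  omega

/-- colour of the `x`-th cell of level nine -/
def tau (c : G → Fin 14) (x : ℕ) : Fin 14 := c (cell 9 x)

lemma Good.tau_lt {c : G → Fin 14} (h : Good c) {x : ℕ} (hx : x < 10) : (tau c x : ℕ) < 10 :=
  h.top_outer _ (Or.inl (by rw [lev_cell] <;> omega))

lemma Good.tau_inj {c : G → Fin 14} (h : Good c) {x y : ℕ} (hx : x < 10) (hy : y < 10)
    (e : tau c x = tau c y) : x = y := by
  have := h.1.eq_of_lev e (by rw [lev_cell, lev_cell] <;> omega)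
  have h2 := congrArg cx this
  rwa [cx_cell (by omega), cx_cell (by omega)] at h2

lemma Good.tau_surj {c : G → Fin 14} (h : Good c) (j : Fin 14) (hj : (j : ℕ) < 10) :
    ∃ x, x < 10 ∧ tau c x = j := by
  obtain ⟨u, hu1, hu2⟩ := h.2 j hj 9 (by omega) (by omega)
  refine ⟨cx u, by unfold lev at hu1; omega, ?_⟩
  rw [tau, ← hu1, cell_self, hu2]

lemma Good.exists_pos {c : G → Fin 14} (h : Good c) :
    ∃ p : ℕ → ℕ → ℕ, (∀ i < 10, ∀ l, 9 ≤ l → l ≤ 15 →
        p l i ≤ 12 ∧ l - p l i ≤ 12 ∧ p l i ≤ l ∧ c (cell l (p l i)) = tau c i) ∧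
      (∀ i < 10, ∀ l, 9 ≤ l → l ≤ 14 → p l i ≤ p (l + 1) i ∧ p (l + 1) i ≤ p l i + 1) ∧
      (∀ l, 9 ≤ l → l ≤ 15 → ∀ i j, i < j → j < 10 → p l i < p l j) ∧
      (∀ i < 10, p 9 i = i) ∧ (∀ i < 10, p 15 i = i + 3) := by
  have h0 : ∀ l i : ℕ, ∃ x : ℕ, i < 10 → 9 ≤ l → l ≤ 15 →
      x ≤ 12 ∧ l - x ≤ 12 ∧ x ≤ l ∧ c (cell l x) = tau c i := by
    intro l i
    by_cases hh : i < 10 ∧ 9 ≤ l ∧ l ≤ 15
    · have := h.tau_lt hh.1
      obtain ⟨u, hu1, hu2⟩ := h.2 (tau c i) this l (by omega) (by omega)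
      have h1 := cx_le u
      have h2 := cy_le u
      refine ⟨cx u, fun _ _ _ => ⟨h1, by unfold lev at hu1; omega, by unfold lev at hu1; omega, ?_⟩⟩
      rw [← hu1, cell_self, hu2]
    · exact ⟨0, fun a b c => absurd ⟨a, b, c⟩ hh⟩
  choose p hp using h0
  have hstep : ∀ i < 10, ∀ l, 9 ≤ l → l ≤ 14 → p l i ≤ p (l + 1) i ∧ p (l + 1) i ≤ p l i + 1 := by
    intro i hi l h1 h2
    obtain ⟨a1, a2, a3, a4⟩ := hp l i hi h1 (by omega)
    obtain ⟨b1, b2, b3, b4⟩ := hp (l + 1) i hi (by omega) (by omega)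
    have := h.1.comp (a4.trans b4.symm)
    rw [cx_cell a1, cx_cell b1, cy_cell a2, cy_cell b2] at this
    omega
  have h9 : ∀ i < 10, p 9 i = i := by
    intro i hi
    obtain ⟨a1, a2, a3, a4⟩ := hp 9 i hi le_rfl (by omega)
    exact h.tau_inj (by omega) hi a4
  have hmono : ∀ l, 9 ≤ l → l ≤ 15 → ∀ i j, i < j → j < 10 → p l i < p l j := by
    intro l hl
    induction l, hl using Nat.le_induction with
    | base => intro _ i j hij hj; rw [h9 i (by omega), h9 j hj]; exact hij
    | succ l hl ih =>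
      intro hl2 i j hij hj
      have e0 := ih (by omega) i j hij hj
      have e1 := hstep i (by omega) l hl (by omega)
      have e2 := hstep j hj l hl (by omega)
      have e3 : p (l + 1) i ≠ p (l + 1) j := by
        intro e
        have a4 := (hp (l + 1) i (by omega) (by omega) hl2).2.2.2
        have b4 := (hp (l + 1) j hj (by omega) hl2).2.2.2
        rw [e, b4] at a4
        have := h.tau_inj hj (by omega) a4
        omega
      omega
  refine ⟨p, fun i hi l h1 h2 => hp l i hi h1 h2, hstep, hmono, h9, ?_⟩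
  have m := hmono 15 (by omega) le_rfl
  have m0 := m 0 1 (by omega) (by omega)
  have m1 := m 1 2 (by omega) (by omega)
  have m2 := m 2 3 (by omega) (by omega)
  have m3 := m 3 4 (by omega) (by omega)
  have m4 := m 4 5 (by omega) (by omega)
  have m5 := m 5 6 (by omega) (by omega)
  have m6 := m 6 7 (by omega) (by omega)
  have m7 := m 7 8 (by omega) (by omega)
  have m8 := m 8 9 (by omega) (by omega)
  have b0 := (hp 15 0 (by omega) (by omega) le_rfl).2.1
  have b9 := (hp 15 9 (by omega) (by omega) le_rfl).1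
  intro i hi
  interval_cases i <;> omega

lemma Good.tau_upper {c : G → Fin 14} (h : Good c) {i : ℕ} (hi : i < 10) :
    c (cell 15 (i + 3)) = tau c i := by
  obtain ⟨p, h1, -, -, -, h5⟩ := h.exists_pos
  have := (h1 i hi 15 (by omega) le_rfl).2.2.2
  rwa [h5 i hi] at this

def hook (u : G) : Fin 14 := ⟨min (cx u) (12 - cy u), by have := cx_le u; omega⟩

lemma good_hook : Good hook := by
  constructor
  · apply valid_of
    intro u v e
    have h := congrArg Fin.val e
    simp only [hook] at h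
    have := cx_le u
    have := cy_le u
    have := cx_le v
    have := cy_le v
    omega
  · intro i hi l h1 h2
    by_cases hl : l ≤ 12
    · refine ⟨cell l i, lev_cell (by omega) (by omega) h1, Fin.ext ?_⟩
      simp only [hook]
      rw [cx_cell (by omega), cy_cell (by omega)]
      omega
    · refine ⟨cell l (l - 12 + i), lev_cell (by omega) (by omega) (by omega), Fin.ext ?_⟩
      simp only [hook]
      rw [cx_cell (by omega), cy_cell (by omega)]
      omega

end Pool.Agent.H294Z.Schur
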