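import Mathlib

set_option autoImplicit false

open MvPolynomial Finset

namespace Pool.Agent.H294Z.Schur

/-- Expansion of the Vandermonde product. -/
lemma vand (n : ℕ) :
    ∏ p ∈ (univ : Finset (Fin n × Fin n)).filter (fun p => p.1 < p.2),
        (X p.1 - X p.2 : MvPolynomial (Fin n) ℤ)
      = ∑ σ : Equiv.Perm (Fin n), monomial
          (Finsupp.equivFunOnFinite.symm fun a => ((σ a).rev : ℕ)) ((Equiv.Perm.sign σ : ℤˣ) : ℤ) := by
  have h1 := Matrix.det_vandermonde (fun i : Fin n => (X i.rev : MvPolynomial (Fin n) ℤ))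
  have h2 : ∏ p ∈ (univ : Finset (Fin n × Fin n)).filter (fun p => p.1 < p.2),
        (X p.1 - X p.2 : MvPolynomial (Fin n) ℤ)
      = ∏ i : Fin n, ∏ j ∈ Ioi i, (X j.rev - X i.rev : MvPolynomial (Fin n) ℤ) := by
    rw [Finset.prod_sigma']
    refine Finset.prod_bij' (fun p _ => (⟨p.2.rev, p.1.rev⟩ : Σ _ : Fin n, Fin n))
      (fun q _ => (q.2.rev, q.1.rev)) ?_ ?_ ?_ ?_ ?_
    · intro p hp
      simp only [mem_filter, mem_univ, true_and] at hp
      simp [hp]
    · intro q hq
      simp only [mem_sigma, mem_univ, mem_Ioi, true_and] at hq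
      simp [hq]
    · intro p _
      simp
    · intro q _
      simp
    · intro p _
      simp
  rw [h2, ← h1, ← Matrix.det_submatrix_equiv_self Fin.revPerm, ← Matrix.det_transpose,
    Matrix.det_apply]
  refine Finset.sum_congr rfl fun σ _ => ?_
  rw [monomial_eq, Finsupp.prod_fintype _ _ (by simp)]
  simp [Matrix.vandermonde, Units.smul_def]

lemma prod_X {G : Type} [Fintype G] {n : ℕ} (c : G → Fin n) :
    ∏ v : G, (X (c v) : MvPolynomial (Fin n) ℤ)
      = monomial (Finsupp.equivFunOnFinite.symm fun i => (univ.filter (fun v => c v = i)).card) 1 := by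
  rw [monomial_eq, Finsupp.prod_fintype _ _ (by simp), ← Finset.prod_fiberwise univ c]
  simp only [map_one, one_mul, Finsupp.equivFunOnFinite_symm_apply_apply]
  refine Finset.prod_congr rfl fun i _ => ?_
  rw [← Finset.prod_const]
  refine Finset.prod_congr rfl fun v hv => ?_
  rw [(mem_filter.1 hv).2]

lemma coeff_eq {G : Type} [Fintype G] {n : ℕ} (S : Finset (G → Fin n)) (al : Fin n → ℕ) :
    coeff (Finsupp.equivFunOnFinite.symm al)
      ((∑ c ∈ S, ∏ v : G, (X (c v) : MvPolynomial (Fin n) ℤ)) *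
        ∏ p ∈ (univ : Finset (Fin n × Fin n)).filter (fun p => p.1 < p.2),
          (X p.1 - X p.2 : MvPolynomial (Fin n) ℤ))
      = ∑ c ∈ S, ∑ σ : Equiv.Perm (Fin n),
          if ∀ i, (univ.filter (fun v => c v = i)).card + ((σ i).rev : ℕ) = al i
          then ((Equiv.Perm.sign σ : ℤˣ) : ℤ) else 0 := by
  classical
  rw [vand, Finset.sum_mul_sum, coeff_sum]
  refine Finset.sum_congr rfl fun c _ => ?_
  rw [coeff_sum]
  refine Finset.sum_congr rfl fun σ _ => ?_
  rw [prod_X, monomial_mul, coeff_monomial, one_mul]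
  refine if_congr ?_ rfl rfl
  rw [Finsupp.ext_iff]
  simp

/-- The signed weight of the contents of the four last colours. -/
def w4 (b : Fin 4 → ℕ) : ℤ :=
  ∑ π : Equiv.Perm (Fin 4),
    if ∀ k, b k + ((π k).rev : ℕ) = (![6, 4, 3, 2] : Fin 4 → ℕ) k
    then ((Equiv.Perm.sign π : ℤˣ) : ℤ) else 0

def al : Fin 14 → ℕ := ![38, 35, 32, 29, 26, 23, 20, 17, 14, 11, 6, 4, 3, 2]

def lo4 (k : Fin 4) : Fin 14 := ⟨10 + k, by omega⟩

lemma al_top (i : Fin 14) (hi : (i : ℕ) < 10) : al i + 3 * i = 38 := by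
  revert i; decide

lemma al_low (k : Fin 4) : al (lo4 k) = (![6, 4, 3, 2] : Fin 4 → ℕ) k := by
  revert k; decide

def ext4 (π : Equiv.Perm (Fin 4)) : Equiv.Perm (Fin (10 + 4)) :=
  finSumFinEquiv.permCongr (Equiv.Perm.sumCongr (1 : Equiv.Perm (Fin 10)) π)

lemma ext4_top (π : Equiv.Perm (Fin 4)) (i : Fin 14) (hi : (i : ℕ) < 10) : ext4 π i = i := by
  have h : ∀ j : Fin 10, ext4 π (Fin.castAdd 4 j) = Fin.castAdd 4 j := by
    intro j
    rw [ext4, Equiv.permCongr_apply, finSumFinEquiv_symm_apply_castAdd]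
    rfl
  exact h ⟨i, hi⟩

lemma ext4_low (π : Equiv.Perm (Fin 4)) (k : Fin 4) : ext4 π (lo4 k) = lo4 (π k) := by
  have h : ext4 π (Fin.natAdd 10 k) = Fin.natAdd 10 (π k) := by
    rw [ext4, Equiv.permCongr_apply, finSumFinEquiv_symm_apply_natAdd]
    rfl
  exact h

lemma sign_ext4 (π : Equiv.Perm (Fin 4)) : Equiv.Perm.sign (ext4 π) = Equiv.Perm.sign π := by
  simp [ext4]

lemma top_or_low (i : Fin 14) : (i : ℕ) < 10 ∨ ∃ k, i = lo4 k := by
  by_cases h : (i : ℕ) < 10
  · exact Or.inl h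
  · exact Or.inr ⟨⟨i - 10, by omega⟩, Fin.ext (by simp [lo4]; omega)⟩

lemma lo4_inj : Function.Injective lo4 := by
  intro a b h
  have := congrArg Fin.val h
  simp only [lo4] at this
  exact Fin.ext (by omega)

lemma exists_ext4 (σ : Equiv.Perm (Fin 14)) (h : ∀ i : Fin 14, (i : ℕ) < 10 → σ i = i) :
    ∃ π, ext4 π = σ := by
  have h1 : ∀ k, ∃ k', σ (lo4 k) = lo4 k' := by
    intro k
    rcases top_or_low (σ (lo4 k)) with h2 | h2
    · have h3 := σ.injective (h _ h2)
      rw [h3] at h2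
      simp [lo4] at h2
    · exact h2
  choose p hp using h1
  have hinj : Function.Injective p := by
    intro a b hab
    apply lo4_inj
    apply σ.injective
    rw [hp, hp, hab]
  refine ⟨Equiv.ofBijective p (Finite.injective_iff_bijective.1 hinj), ?_⟩
  ext i : 1
  rcases top_or_low i with h2 | ⟨k, rfl⟩
  · rw [ext4_top _ _ h2, h i h2]
  · rw [ext4_low, hp]
    rfl

lemma sum_perm (β : Fin 14 → ℕ) (hβ : ∀ i : Fin 14, (i : ℕ) < 10 → β i + 2 * i = 25) :
    (∑ σ : Equiv.Perm (Fin 14), if ∀ i, β i + ((σ i).rev : ℕ) = al i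
      then ((Equiv.Perm.sign σ : ℤˣ) : ℤ) else 0) = w4 (fun k => β (lo4 k)) := by
  symm
  unfold w4
  refine Finset.sum_of_injOn ext4 ?_ (fun _ _ => Finset.mem_univ _) ?_ ?_
  · intro a _ b _ hab
    ext k : 1
    apply lo4_inj
    rw [← ext4_low, ← ext4_low, hab]
  · intro σ _ hσ
    rw [if_neg]
    intro hall
    apply hσ
    obtain ⟨π, hπ⟩ := exists_ext4 σ (fun i hi => by
      have e1 := hall i
      have e2 := hβ i hi
      have e3 := al_top i hi
      have e4 := (σ i).2
      rw [Fin.val_rev] at e1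
      exact Fin.ext (by omega))
    exact ⟨π, by simp, hπ⟩
  · intro π _
    rw [sign_ext4]
    refine if_congr ⟨fun h i => ?_, fun h k => ?_⟩ rfl rfl
    · rcases top_or_low i with h2 | ⟨k, rfl⟩
      · rw [ext4_top _ _ h2, Fin.val_rev]
        have e2 := hβ i h2
        have e3 := al_top i h2
        omega
      · rw [ext4_low, al_low, ← h k, Fin.val_rev, Fin.val_rev]
        have := (π k).2
        simp only [lo4]
        omega
    · have := h (lo4 k)
      rw [ext4_low, al_low, Fin.val_rev] at this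
      rw [← this, Fin.val_rev]
      have := (π k).2
      simp only [lo4]
      omega

end Pool.Agent.H294Z.Schur
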